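import Pool.Agent.H15.G.R_seed8.TH603.EL.Defs

/-! The coordinates of the tube do not vanish at the points of the torus (job 3892, helper634). -/

set_option autoImplicit false

namespace Pool.Agent.TH603.EL

open MvPolynomial

variable {F : Type} [Field F]

namespace Van1

/-- the coefficient of the theta function at an exponent attained only once -/
theorem theta_coeff (τ : ℝ) (l : ZMod 3) (i0 : ℤ) (hl : (i0 : ZMod 3) = l)
    (h : ∀ i : ℤ, (i : ZMod 3) = l → ex τ i = ex τ i0 → i = i0) :
    (theta F τ l).coeff (ex τ i0) = AddMonoidAlgebra.single (i0, 0) 1 := by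
  classical
  ext m
  obtain ⟨i, j⟩ := m
  have h1 := cf_theta (F := F) τ l (ex τ i0) i j
  unfold cf at h1
  rw [h1]
  by_cases hm : ((i0, (0 : ℤ)) : ℤ × ℤ) = (i, j)
  · have h2 := Prod.ext_iff.1 hm
    simp only at h2
    obtain ⟨h2, h3⟩ := h2
    subst h2 h3
    rw [if_pos ⟨rfl, hl, rfl⟩]
    simp
  · rw [if_neg]
    · simp [hm]
    · rintro ⟨hj, hi, he⟩
      apply hm
      rw [hj, h i hi he]

theorem tz_coeff (s a : ℝ) (i j : ℤ) (h : a ≠ s) : (tz F s i j).coeff a = 0 := by
  unfold tz
  rw [HahnSeries.coeff_single_of_ne h]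

theorem ne_of_coeff {x y : F} (hx : x ≠ 0) (hy : y ≠ 0) {u : HR F} {a : ℝ} {i j : ℤ}
    (h : u.coeff a = AddMonoidAlgebra.single (i, j) 1) : evp hx hy u ≠ 0 := by
  intro h0
  have h1 := evp_coeff hx hy u a
  rw [h0, h, HahnSeries.coeff_zero] at h1
  have h2 := Pool.Agent.TH176.Nag.evL_mon x y hx hy (i, j)
  have h3 : Pool.Agent.TH176.Nag.evL x y hx hy (AddMonoidAlgebra.single (i, j) 1) =
      x ^ i * y ^ j := h2
  rw [h3] at h1
  exact (mul_ne_zero (zpow_ne_zero _ hx) (zpow_ne_zero _ hy)) h1.symm

end Van1

open Van1 in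
theorem evp_tube {x y : F} (hx : x ≠ 0) (hy : y ≠ 0) {τ s : ℝ} (h0 : 0 < τ) (h1 : τ < 1)
    (hs : 1 ≤ s) (l : ZMod 3) : evp hx hy (tube F τ s l) ≠ 0 := by
  have hee : ∀ i : ℤ, (2 * ee i : ℝ) = i * (i - 1) := fun i => by exact_mod_cast two_ee i
  have hl : l = 0 ∨ l = 1 ∨ l = 2 := by
    revert l; decide
  rcases hl with rfl | rfl | rfl
  · -- coefficient at 0
    have hc : (theta F τ 0).coeff (ex τ 0) = AddMonoidAlgebra.single (0, 0) 1 := by
      refine theta_coeff τ 0 0 (by simp) (fun i _ he => ?_)
      unfold ex at he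
      have h2 := hee i
      have h3 := hee 0
      push_cast at he h2 h3
      have h4 : (i : ℝ) * ((i : ℝ) - 1 + 2 * τ) = 0 := by nlinarith
      rcases mul_eq_zero.1 h4 with h5 | h5
      · exact_mod_cast h5
      · have h6 : (-1 : ℝ) < i := by linarith
        have h7 : (i : ℝ) < 1 := by linarith
        have h6' : -1 < i := by exact_mod_cast h6
        have h7' : i < 1 := by exact_mod_cast h7
        omega
    refine ne_of_coeff hx hy (a := ex τ 0) (i := 0) (j := 0) ?_
    unfold tube
    rw [if_neg (by decide), add_zero, hc]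
  · -- coefficient at `τ`
    have hc : (theta F τ 1).coeff (ex τ 1) = AddMonoidAlgebra.single (1, 0) 1 := by
      refine theta_coeff τ 1 1 (by simp) (fun i hi he => ?_)
      unfold ex at he
      have h2 := hee i
      have h3 := hee 1
      push_cast at he h2 h3
      have h4 : ((i : ℝ) - 1) * ((i : ℝ) + 2 * τ) = 0 := by nlinarith
      rcases mul_eq_zero.1 h4 with h5 | h5
      · have : (i : ℝ) = 1 := by linarith
        exact_mod_cast this
      · have h6 : (-2 : ℝ) < i := by linarith
        have h7 : (i : ℝ) < 0 := by linarith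
        have h6' : -2 < i := by exact_mod_cast h6
        have h7' : i < 0 := by exact_mod_cast h7
        have h8 : i = -1 := by omega
        rw [h8] at hi
        exact absurd hi (by decide)
    refine ne_of_coeff hx hy (a := ex τ 1) (i := 1) (j := 0) ?_
    unfold tube
    rw [if_neg (by decide), add_zero, hc]
  · -- coefficient at `1 - τ`
    have hc : (theta F τ 2).coeff (ex τ (-1)) = AddMonoidAlgebra.single (-1, 0) 1 := by
      refine theta_coeff τ 2 (-1) (by decide) (fun i hi he => ?_)
      unfold ex at he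
      have h2 := hee i
      have h3 := hee (-1)
      push_cast at he h2 h3
      have h4 : ((i : ℝ) + 1) * ((i : ℝ) - 2 + 2 * τ) = 0 := by nlinarith
      rcases mul_eq_zero.1 h4 with h5 | h5
      · have : (i : ℝ) = -1 := by linarith
        exact_mod_cast this
      · have h6 : (0 : ℝ) < i := by linarith
        have h7 : (i : ℝ) < 2 := by linarith
        have h6' : 0 < i := by exact_mod_cast h6
        have h7' : i < 2 := by exact_mod_cast h7
        have h8 : i = 1 := by omega
        rw [h8] at hi
        exact absurd hi (by decide)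
    have hex : ex τ (-1) ≠ s := by
      have h3 := hee (-1)
      unfold ex
      push_cast at h3 ⊢
      intro h4
      linarith
    refine ne_of_coeff hx hy (a := ex τ (-1)) (i := -1) (j := 0) ?_
    unfold tube
    rw [if_pos rfl, HahnSeries.coeff_add, hc, tz_coeff s _ 0 1 hex, add_zero]

end Pool.Agent.TH603.EL
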