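import Pool.Agent.H15.G.R_seed8.TH603.EL.Defs

/-!
# Lemmas on the form attached to a polynomial in the affine plane
(job EL-F2 of helper603, written by helper643)
-/

set_option autoImplicit false

namespace Pool.Agent.TH603.EL

open MvPolynomial

variable {F : Type} [Field F]

namespace Van2

/-- the exponent attached to `m` -/
noncomputable def xp (d : ℕ) (m : ℤ × ℤ) : ZMod 3 →₀ ℕ :=
  Finsupp.single 0 ((d : ℤ) - m.1 - m.2).toNat + Finsupp.single 1 m.1.toNat +
    Finsupp.single 2 m.2.toNat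

theorem xp_one (d : ℕ) (m : ℤ × ℤ) : xp d m 1 = m.1.toNat := by
  have h1 : (0 : ZMod 3) ≠ 1 := by decide
  have h2 : (2 : ZMod 3) ≠ 1 := by decide
  unfold xp
  simp [h1, h2]

theorem xp_two (d : ℕ) (m : ℤ × ℤ) : xp d m 2 = m.2.toNat := by
  have h1 : (0 : ZMod 3) ≠ 2 := by decide
  have h2 : (1 : ZMod 3) ≠ 2 := by decide
  unfold xp
  simp [h1, h2]

theorem term_eq (d : ℕ) (m : ℤ × ℤ) (c : HK F) :
    C c * (X 0 ^ ((d : ℤ) - m.1 - m.2).toNat * X 1 ^ m.1.toNat * X 2 ^ m.2.toNat) =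
      (monomial (xp d m) c : MvPolynomial (ZMod 3) (HK F)) := by
  unfold xp
  rw [X_pow_eq_monomial, X_pow_eq_monomial, X_pow_eq_monomial, monomial_mul, monomial_mul,
    C_mul_monomial, mul_one, mul_one, mul_one]

theorem hom_eq (d : ℕ) (f : (ℤ × ℤ) →₀ HK F) :
    hom d f = ∑ m ∈ f.support, monomial (xp d m) (f m) := by
  unfold hom Finsupp.sum
  exact Finset.sum_congr rfl fun m _ => term_eq d m (f m)

end Van2

open Van2

theorem hom_isHomogeneous {d : ℕ} {f : (ℤ × ℤ) →₀ HK F}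
    (hf : ∀ m ∈ f.support, 0 ≤ m.1 ∧ 0 ≤ m.2 ∧ m.1 + m.2 ≤ d) : (hom d f).IsHomogeneous d := by
  rw [hom_eq]
  apply IsHomogeneous.sum
  intro m hm
  apply isHomogeneous_monomial
  obtain ⟨h1, h2, h3⟩ := hf m hm
  unfold xp
  rw [map_add, map_add, Finsupp.degree_single, Finsupp.degree_single,
    Finsupp.degree_single]
  omega

theorem hom_ne_zero {d : ℕ} {f : (ℤ × ℤ) →₀ HK F}
    (hf : ∀ m ∈ f.support, 0 ≤ m.1 ∧ 0 ≤ m.2 ∧ m.1 + m.2 ≤ d) (hne : f ≠ 0) : hom d f ≠ 0 := by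
  classical
  intro h
  obtain ⟨m, hm⟩ := Finsupp.support_nonempty_iff.2 hne
  have h1 : (hom d f).coeff (xp d m) = f m := by
    rw [hom_eq, coeff_sum, Finset.sum_eq_single m]
    · rw [coeff_monomial, if_pos rfl]
    · intro m' hm' hmm
      rw [coeff_monomial, if_neg]
      intro he
      apply hmm
      obtain ⟨a1, a2, _⟩ := hf m hm
      obtain ⟨b1, b2, _⟩ := hf m' hm'
      have e1 : m'.1.toNat = m.1.toNat := by rw [← xp_one d m', he, xp_one]
      have e2 : m'.2.toNat = m.2.toNat := by rw [← xp_two d m', he, xp_two]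
      apply Prod.ext
      · omega
      · omega
    · intro h2
      exact absurd hm h2
  rw [h, coeff_zero] at h1
  exact (Finsupp.mem_support_iff.1 hm) h1.symm

end Pool.Agent.TH603.EL
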