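import Pool.Agent.H15.G.R_seed8.TH868.NG.Van3

/-! Transfer of the multiplicities along the tube (see `TH868/NG/Van3.lean`). -/

namespace Pool.Agent.TH603.EL

theorem LM_transfer {F : Type} [Field F] [CharZero F] {x y : F} (hx : x ≠ 0) (hy : y ≠ 0)
    {U : ZMod 3 → HR F} (hU : ∀ l, evp hx hy (U l) ≠ 0) {d : ℕ} {f : (ℤ × ℤ) →₀ HK F}
    (hf : ∀ m ∈ f.support, 0 ≤ m.1 ∧ 0 ≤ m.2 ∧ m.1 + m.2 ≤ d) {w : ℕ}
    (h : Pool.Agent.TH176.Nag.LM f (evp hx hy (U 1) / evp hx hy (U 0))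
      (evp hx hy (U 2) / evp hx hy (U 0)) w) (a : ℝ) :
    Pool.Agent.TH176.Nag.LM ((ev U (hom d f)).coeff a).coeff x y w :=
  Pool.Agent.TH868.NG.LM_transfer hx hy hU hf h a

end Pool.Agent.TH603.EL
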