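import Pool.Agent.H15.G.R_seed8.TH603.EL.Lead
import Pool.Agent.H15.G.R_seed8.TH603.EL.Van1
import Pool.Agent.H15.G.R_seed8.TH603.EL.Van2
import Pool.Agent.H15.G.R_seed8.TH603.EL.Van3

/-! The key lemma: emptiness on the triangle of slope `τ` gives emptiness in the plane. -/

namespace Pool.Agent.TH603.EL

open MvPolynomial

open Pool.Agent.TH176.Nag in
/-- the key lemma: emptiness of the linear system on the triangle of slope `τ` gives emptiness of
the system of plane curves -/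
theorem Emp_key {ι : Type} {w : ι → ℕ} {d : ℕ} {τ : ℝ} (h0 : 0 < τ) (h1 : τ < 1)
    (h : Emp w (Reg (-((d : ℝ) * (1 + τ))) (d * (2 - τ)) (3 * (1 + τ)) (3 * (2 - τ)))) :
    Emp w {m : ℤ × ℤ | 0 ≤ m.1 ∧ 0 ≤ m.2 ∧ m.1 + m.2 ≤ (d : ℤ)} := by
  have h' : Emp w {m : ℤ × ℤ | ((m.1 - m.2, m.2) : ℤ × ℤ) ∈
      Reg (-((d : ℝ) * (1 + τ))) (d * (2 - τ)) (3 * (1 + τ)) (3 * (2 - τ))} := by
    refine h.comap 1 (-1) 0 1 0 0 (by norm_num) ?_
    intro m hm
    have e : ((1 * m.1 + -1 * m.2 + 0, 0 * m.1 + 1 * m.2 + 0) : ℤ × ℤ) = (m.1 - m.2, m.2) := by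
      ext <;> simp
      ring
    rw [e]
    exact hm
  obtain ⟨F, _, _, x, y, hx, hy, hE⟩ := h'
  obtain ⟨s, hs⟩ : ∃ s : ℝ, s = 3 * (d : ℝ) + 4 := ⟨_, rfl⟩
  have hd : (0 : ℝ) ≤ d := Nat.cast_nonneg d
  have hs1 : 3 * (d : ℝ) + 3 < s := by rw [hs]; linarith
  have hs2 : 1 ≤ s := by rw [hs]; linarith
  have hchar : CharZero (HK F) :=
    charZero_of_injective_ringHom (f := (HahnSeries.C : F →+* HK F)) HahnSeries.C_injective
  have hU : ∀ i l, evp (hx i) (hy i) (tube F τ s l) ≠ 0 :=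
    fun i l => evp_tube (hx i) (hy i) h0 h1 hs2 l
  refine ⟨HK F, inferInstance, hchar,
    fun i => evp (hx i) (hy i) (tube F τ s 1) / evp (hx i) (hy i) (tube F τ s 0),
    fun i => evp (hx i) (hy i) (tube F τ s 2) / evp (hx i) (hy i) (tube F τ s 0),
    fun i => div_ne_zero (hU i 1) (hU i 0), fun i => div_ne_zero (hU i 2) (hU i 0), ?_⟩
  intro f hf hLM
  by_contra hne
  have hf' : ∀ m ∈ f.support, 0 ≤ m.1 ∧ 0 ≤ m.2 ∧ m.1 + m.2 ≤ (d : ℤ) := fun m hm => hf hm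
  obtain ⟨a, ha, hb⟩ := tube_lead h0 h1 (hom_isHomogeneous hf') (hom_ne_zero hf' hne) hs1
  have h2 : ((ev (tube F τ s) (hom d f)).coeff a).coeff = 0 := by
    apply hE
    · intro m hm
      have hm' : cf (ev (tube F τ s) (hom d f)) a m.1 m.2 ≠ 0 := by
        have := Finsupp.mem_support_iff.1 hm
        exact this
      obtain ⟨h3, h4, h5⟩ := hb m.1 m.2 hm'
      refine ⟨h3, ?_, ?_⟩
      · push_cast
        linarith
      · push_cast
        linarith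
    · intro i
      exact LM_transfer (hx i) (hy i) (hU i) hf' (hLM i) a
  apply ha
  ext m
  rw [h2]
  rfl

end Pool.Agent.TH603.EL
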