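import Pool.Agent.H15.G.R_seed8.TH181.Nag.Tri
import Pool.Agent.H15.G.R_seed8.TH176.Nag.Main

/-!
# Emptiness of plane systems and Nagata's inequality, from the key lemma

`KeyS` is the statement of the key lemma (`Emp_key`, file `Key.lean`).
-/

namespace Pool.Agent.TH603.EL

open Pool.Agent.TH176.Nag

/-- the key lemma -/
def KeyS : Prop := ∀ (ι : Type) (w : ι → ℕ) (d : ℕ) (τ : ℝ), 0 < τ → τ < 1 →
  Emp w (Reg (-((d : ℝ) * (1 + τ))) (d * (2 - τ)) (3 * (1 + τ)) (3 * (2 - τ))) →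
  Emp w {m : ℤ × ℤ | 0 ≤ m.1 ∧ 0 ≤ m.2 ∧ m.1 + m.2 ≤ (d : ℤ)}

namespace FinAux

open Pool.Agent.TH181.Nag Finset

/-- `PS` with a triangle that may be a point -/
theorem PS_apply {ι : Type} [Fintype ι] {C μ ν : ℝ} (hC : 0 < C) (h : PS C ι μ ν) (w : ι → ℕ)
    {E : ℝ} (hE : 0 ≤ E) (hw : C * E < ∑ i, (w i : ℝ)) (α : ℝ) :
    Emp w (Reg α (α + E * √(μ + ν)) μ ν) := by
  have h1 : E < (∑ i, (w i : ℝ)) / C := by rw [lt_div_iff₀ hC]; linarith
  obtain ⟨E', h2, h3⟩ := exists_between h1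
  rw [lt_div_iff₀ hC] at h3
  refine (h w E' (by linarith) (by linarith) α).mono ?_
  rintro m ⟨k1, k2, k3⟩
  refine ⟨k1, k2, k3.trans ?_⟩
  have h4 : E * √(μ + ν) ≤ E' * √(μ + ν) :=
    mul_le_mul_of_nonneg_right h2.le (Real.sqrt_nonneg _)
  linarith

/-- the shape of the key lemma, every number of points `≥ 9` -/
theorem PS_shape {ι : Type} [Fintype ι] (hn : 9 ≤ Fintype.card ι) (k : ℤ) {τ : ℝ}
    (hτ : √(Fintype.card ι) = k + τ) :
    PS (√(Fintype.card ι)) ι (3 * (1 + τ)) (3 * (2 - τ)) := by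
  have hn' : (9 : ℝ) ≤ Fintype.card ι := by exact_mod_cast hn
  obtain ⟨r, hr⟩ : ∃ r, r = √(Fintype.card ι : ℝ) := ⟨_, rfl⟩
  have hr2 : r ^ 2 = Fintype.card ι := by rw [hr]; exact Real.sq_sqrt (by positivity)
  have hr3 : 3 ≤ r := by rw [hr]; exact Real.le_sqrt_of_sq_le (by linarith)
  rw [← hr] at hτ ⊢
  refine PS.shear (3 * k - 12) ?_
  have e1 : 3 * (1 + τ) + ((3 * k - 12 : ℤ) : ℝ) = 3 * r - 9 := by
    push_cast
    rw [hτ]
    ring
  have e2 : 3 * (2 - τ) - ((3 * k - 12 : ℤ) : ℝ) = 18 - 3 * r := by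
    push_cast
    rw [hτ]
    ring
  rw [e1, e2]
  refine PS.stepA 1 9 isCoprime_one_left (by norm_num) ?_ ?_ ?_ ?_
  · push_cast; linarith
  · push_cast; linarith
  · linarith
  have e3 : ((1 : ℤ) : ℝ) * (((1 : ℤ) : ℝ) * (3 * r - 9) + ((9 : ℤ) : ℝ)) = 3 * r := by
    push_cast; ring
  have e4 : (((9 : ℤ) : ℝ) - ((1 : ℤ) : ℝ) * (18 - 3 * r)) *
      (((1 : ℤ) : ℝ) * (3 * r - 9) + ((9 : ℤ) : ℝ)) / (3 * r - 9 + (18 - 3 * r)) =
      r ^ 2 - 3 * r := by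
    push_cast
    rw [show (3 * r - 9 + (18 - 3 * r) : ℝ) = 9 by ring, div_eq_iff (by norm_num)]
    ring
  rw [e3, e4, hr]
  refine PS.final ?_ ?_ ?_
  · rw [← hr]; linarith
  · rw [← hr]; nlinarith
  · rw [← hr, hr2]; ring

theorem Reg_plane (d : ℕ) : {m : ℤ × ℤ | 0 ≤ m.1 ∧ 0 ≤ m.2 ∧ m.1 + m.2 ≤ (d : ℤ)} ⊆
    Reg 0 (0 + (d : ℝ) * √(0 + 1)) 0 1 := by
  rintro ⟨a, b⟩ ⟨h1, h2, h3⟩
  simp only at h1 h2 h3
  refine ⟨h2, ?_, ?_⟩
  · simp only
    have : (0 : ℝ) ≤ a := by exact_mod_cast h1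
    linarith
  · simp only
    have : (a : ℝ) + b ≤ d := by exact_mod_cast h3
    rw [zero_add, zero_add, Real.sqrt_one]
    linarith

end FinAux

open FinAux Pool.Agent.TH181.Nag Finset in
theorem Emp_plane_of (hk : KeyS) {ι : Type} [Fintype ι] (hn : 9 ≤ Fintype.card ι) {w : ι → ℕ} {d : ℕ}
    (h : √(Fintype.card ι) * (d : ℝ) < ∑ i, (w i : ℝ)) :
    Emp w {m : ℤ × ℤ | 0 ≤ m.1 ∧ 0 ≤ m.2 ∧ m.1 + m.2 ≤ (d : ℤ)} := by
  have hn' : (9 : ℝ) ≤ Fintype.card ι := by exact_mod_cast hn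
  have hC : 0 < √(Fintype.card ι : ℝ) := Real.sqrt_pos.2 (by linarith)
  by_cases hsq : IsSquare (Fintype.card ι)
  · obtain ⟨x, hx⟩ := hsq
    have hx1 : 1 ≤ x := by
      by_contra h0
      have : x = 0 := by omega
      subst this
      omega
    have hx1' : (1 : ℝ) ≤ x := by exact_mod_cast hx1
    have h1 : RT (√(Fintype.card ι : ℝ)) ι 1 := by
      refine RT.mul x hx1 (by linarith) ?_
      refine PS.final le_rfl (by positivity) ?_
      rw [hx]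
      push_cast
      ring
    exact (PS_apply hC h1 w (Nat.cast_nonneg d) h 0).mono (Reg_plane d)
  · obtain ⟨r, hr⟩ : ∃ r, r = √(Fintype.card ι : ℝ) := ⟨_, rfl⟩
    have hr0 : 0 ≤ r := by rw [hr]; exact Real.sqrt_nonneg _
    have hr2 : r ^ 2 = Fintype.card ι := by rw [hr]; exact Real.sq_sqrt (by positivity)
    have hf1 : Int.fract r < 1 := Int.fract_lt_one r
    have hf0 : 0 < Int.fract r := by
      refine lt_of_le_of_ne (Int.fract_nonneg r) fun h0 => hsq ?_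
      have e1 : r = ⌊r⌋ := by
        have := Int.floor_add_fract r
        rw [← h0] at this
        linarith
      have e2 : (0 : ℤ) ≤ ⌊r⌋ := Int.floor_nonneg.2 hr0
      obtain ⟨x, hx⟩ := Int.eq_ofNat_of_zero_le e2
      refine ⟨x, ?_⟩
      have e3 : ((x * x : ℕ) : ℝ) = ((Fintype.card ι : ℕ) : ℝ) := by
        rw [← hr2, e1, hx]
        push_cast
        ring
      exact_mod_cast e3.symm
    apply hk ι w d (Int.fract r) hf0 hf1
    have h1 := PS_shape hn ⌊r⌋ (τ := Int.fract r) (by rw [← hr]; exact (Int.floor_add_fract r).symm)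
    have h2 := PS_apply hC h1 w (Nat.cast_nonneg d) h (-((d : ℝ) * (1 + Int.fract r)))
    have e1 : 3 * (1 + Int.fract r) + 3 * (2 - Int.fract r) = 3 ^ 2 := by ring
    rw [e1, Real.sqrt_sq (by norm_num)] at h2
    have e2 : -((d : ℝ) * (1 + Int.fract r)) + d * 3 = d * (2 - Int.fract r) := by ring
    rw [e2] at h2
    exact h2

open MvPolynomial in
/-- Nagata's inequality for `n ≥ 9` very general points, not strict -/
theorem nagata_le_of (hk : KeyS) {n : ℕ} (hn : 9 ≤ n) {v : Fin n → Fin 3 → ℂ} (hv0 : ∀ i, v i 0 ≠ 0)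
    (hind : AlgebraicIndependent (⊥ : Subfield ℂ)
        (fun q : Fin n × Fin 2 => v q.1 q.2.succ / v q.1 0))
    {d : ℕ} {m : Fin n → ℕ} {F : MvPolynomial (Fin 3) ℂ} (hF : F ≠ 0)
    (hFd : F.IsHomogeneous d)
    (hm : ∀ i : Fin n, ∀ s : Fin 3 →₀ ℕ, (∑ j, s j) < m i →
            MvPolynomial.coeff s
              (MvPolynomial.aeval
                (fun j : Fin 3 => (X j + MvPolynomial.C (v i j) : MvPolynomial (Fin 3) ℂ)) F) = 0) :
    ∑ i, (m i : ℝ) ≤ d * Real.sqrt (n : ℝ) := by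
  rw [mul_comm]
  refine sum_le_of_Emp (√(n : ℝ)) ?_ hv0 hind hF hFd hm
  intro e w hw
  apply Emp_plane_of hk (by rw [Fintype.card_fin]; exact hn)
  rw [Fintype.card_fin]
  push_cast
  exact hw

open MvPolynomial in
/-- Nagata's conjecture: `n` very general points, `n ≥ 10` not a square -/
theorem nagata_all_of (hk : KeyS) {n : ℕ} (hn : 9 ≤ n) (hsq : ¬ IsSquare n) {v : Fin n → Fin 3 → ℂ}
    (hv0 : ∀ i, v i 0 ≠ 0)
    (hind : AlgebraicIndependent (⊥ : Subfield ℂ)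
        (fun q : Fin n × Fin 2 => v q.1 q.2.succ / v q.1 0))
    {d : ℕ} {m : Fin n → ℕ} {F : MvPolynomial (Fin 3) ℂ} (hF : F ≠ 0) (hd : 0 < d)
    (hFd : F.IsHomogeneous d)
    (hm : ∀ i : Fin n, ∀ s : Fin 3 →₀ ℕ, (∑ j, s j) < m i →
            MvPolynomial.coeff s
              (MvPolynomial.aeval
                (fun j : Fin 3 => (X j + MvPolynomial.C (v i j) : MvPolynomial (Fin 3) ℂ)) F) = 0) :
    ∑ i, (m i : ℝ) < d * Real.sqrt (n : ℝ) := by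
  refine lt_of_le_of_ne (nagata_le_of hk hn hv0 hind hF hFd hm) fun heq => hsq ?_
  have h1 : ((∑ i, m i : ℕ) : ℝ) ^ 2 = (d : ℝ) ^ 2 * n := by
    push_cast
    rw [heq, mul_pow, Real.sq_sqrt (Nat.cast_nonneg _)]
  have h2 : (∑ i, m i) ^ 2 = d ^ 2 * n := by exact_mod_cast h1
  have h3 : d ∣ ∑ i, m i := (Nat.pow_dvd_pow_iff (by norm_num)).1 ⟨n, h2⟩
  obtain ⟨c, hc⟩ := h3
  refine ⟨c, ?_⟩
  have h4 : 0 < d ^ 2 := by positivity
  have h5 : d ^ 2 * n = d ^ 2 * (c * c) := by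
    rw [← h2, hc]; ring
  exact Nat.eq_of_mul_eq_mul_left h4 h5

end Pool.Agent.TH603.EL
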