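import Pool.Agent.H15.G.R_seed8.TH603.EL.Defs

/-! Scaling of polynomials in the theta functions (helper147, job 3884). -/

set_option autoImplicit false

namespace Pool.Agent.TH603.EL

open MvPolynomial

namespace Scal2

variable {F : Type} [Field F]

/-- the summand of the product formula -/
noncomputable def sm (x y : HR F) (a : ℝ) (i j : ℤ) (p : ℝ × (ℤ × ℤ)) : F :=
  cf x p.1 p.2.1 p.2.2 * cf y (a - p.1) (i - p.2.1) (j - p.2.2)

lemma sm_fin (x y : HR F) (a : ℝ) (i j : ℤ) : (Function.support (sm x y a i j)).Finite := by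
  apply Set.Finite.subset (s := ⋃ q ∈ (Finset.antidiagonal x.isPWO_support y.isPWO_support a :
    Finset (ℝ × ℝ)), (fun m : ℤ × ℤ => (q.1, m)) '' ((x.coeff q.1).coeff.support : Set (ℤ × ℤ)))
  · exact Set.Finite.biUnion (Finset.finite_toSet _)
      fun q _ => (Finset.finite_toSet _).image _
  · intro p hp
    rw [Function.mem_support, sm] at hp
    have h1 : cf x p.1 p.2.1 p.2.2 ≠ 0 := left_ne_zero_of_mul hp
    have h2 : cf y (a - p.1) (i - p.2.1) (j - p.2.2) ≠ 0 := right_ne_zero_of_mul hp
    have h3 : x.coeff p.1 ≠ 0 := by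
      intro h
      apply h1
      unfold cf
      rw [h]
      simp
    have h4 : y.coeff (a - p.1) ≠ 0 := by
      intro h
      apply h2
      unfold cf
      rw [h]
      simp
    rw [Set.mem_iUnion₂]
    refine ⟨(p.1, a - p.1), ?_, ?_⟩
    · rw [Finset.mem_antidiagonal]
      exact ⟨h3, h4, by simp⟩
    · refine ⟨p.2, ?_, rfl⟩
      rw [Finset.mem_coe, Finsupp.mem_support_iff]
      exact h1

/-- the product formula -/
lemma cf_mul (x y : HR F) (a : ℝ) (i j : ℤ) : cf (x * y) a i j = ∑ᶠ p, sm x y a i j p := by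
  classical
  have hfs := sm_fin x y a i j
  rw [finsum_curry _ hfs]
  have h1 : ∀ a1 : ℝ, ∑ᶠ m : ℤ × ℤ, sm x y a i j (a1, m) =
      (x.coeff a1 * y.coeff (a - a1)).coeff (i, j) := by
    intro a1
    rw [AddMonoidAlgebra.coeff_mul_apply_left, Finsupp.sum]
    rw [finsum_eq_sum_of_support_subset (s := (x.coeff a1).coeff.support)]
    · refine Finset.sum_congr rfl fun m _ => ?_
      unfold sm cf
      congr 2
      ext
      · simp; ring
      · simp; ring
    · intro m hm
      rw [Finset.mem_coe, Finsupp.mem_support_iff]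
      exact left_ne_zero_of_mul hm
  simp only [h1]
  unfold cf
  rw [HahnSeries.coeff_mul]
  have h2 : (∑ q ∈ Finset.antidiagonal x.isPWO_support y.isPWO_support a,
      x.coeff q.1 * y.coeff q.2).coeff (i, j) =
      ∑ q ∈ Finset.antidiagonal x.isPWO_support y.isPWO_support a,
        (x.coeff q.1 * y.coeff q.2).coeff (i, j) := by
    induction (Finset.antidiagonal x.isPWO_support y.isPWO_support a) using
      Finset.induction_on with
    | empty => simp
    | insert q s hq ih =>
      rw [Finset.sum_insert hq, Finset.sum_insert hq, AddMonoidAlgebra.coeff_add,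
        Finsupp.add_apply, ih]
  rw [h2]
  rw [finsum_eq_sum_of_support_subset
    (s := (Finset.antidiagonal x.isPWO_support y.isPWO_support a).image Prod.fst)]
  · rw [Finset.sum_image]
    · refine Finset.sum_congr rfl fun q hq => ?_
      rw [Finset.mem_antidiagonal] at hq
      have : q.2 = a - q.1 := by linarith [hq.2.2]
      rw [this]
    · intro q hq q' hq' hqq
      rw [Finset.mem_coe, Finset.mem_antidiagonal] at hq hq'
      refine Prod.ext hqq ?_
      have h3 := hq.2.2
      have h4 := hq'.2.2
      linarith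
  · intro a1 ha1
    rw [Function.mem_support] at ha1
    rw [Finset.coe_image]
    refine ⟨(a1, a - a1), ?_, rfl⟩
    rw [Finset.mem_coe, Finset.mem_antidiagonal]
    refine ⟨?_, ?_, by simp⟩
    · intro h
      apply ha1
      rw [h]
      simp
    · intro h
      apply ha1
      rw [h]
      simp

/-- `y` is obtained from `x` by the substitution `z ↦ t ^ s z` -/
def Sc (s : ℝ) (x y : HR F) : Prop := ∀ (a : ℝ) (i j : ℤ), cf y (a + s * i) i j = cf x a i j

lemma cf_add (x y : HR F) (a : ℝ) (i j : ℤ) : cf (x + y) a i j = cf x a i j + cf y a i j := by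
  simp [cf]

lemma Sc.add {s : ℝ} {x y x' y' : HR F} (h : Sc s x y) (h' : Sc s x' y') :
    Sc s (x + x') (y + y') := by
  intro a i j
  rw [cf_add, cf_add, h a i j, h' a i j]

lemma Sc.mul {s : ℝ} {x y x' y' : HR F} (h : Sc s x y) (h' : Sc s x' y') :
    Sc s (x * x') (y * y') := by
  intro a i j
  rw [cf_mul, cf_mul]
  symm
  apply finsum_eq_of_bijective (fun p : ℝ × (ℤ × ℤ) => (p.1 + s * p.2.1, p.2))
  · constructor
    · intro p q hpq
      simp only [Prod.mk.injEq] at hpq
      obtain ⟨h1, h2⟩ := hpq
      refine Prod.ext ?_ h2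
      rw [h2] at h1
      linarith
    · intro p
      exact ⟨(p.1 - s * p.2.1, p.2), by simp⟩
  · intro p
    unfold sm
    simp only
    rw [h p.1 p.2.1 p.2.2]
    congr 1
    rw [← h' (a - p.1) (i - p.2.1) (j - p.2.2)]
    congr 1
    push_cast
    ring

lemma Sc.incl (s : ℝ) (c : HK F) : Sc s (incl c) (incl c) := by
  intro a i j
  rw [cf_incl, cf_incl]
  split_ifs with h
  · rw [h.1]; simp
  · rfl

lemma Sc.theta (τ s : ℝ) (l : ZMod 3) : Sc s (theta F τ l) (theta F (τ + s) l) := by
  classical
  intro a i j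
  rw [cf_theta, cf_theta]
  refine if_congr ?_ rfl rfl
  unfold ex
  refine and_congr_right fun _ => and_congr_right fun _ => ?_
  constructor
  · intro h; linarith
  · intro h; linarith

end Scal2

open Scal2 in
theorem ev_scal {F : Type} [Field F] (g : MvPolynomial (ZMod 3) (HK F)) (τ s a : ℝ) (i j : ℤ) :
    cf (ev (theta F (τ + s)) g) (a + s * i) i j = cf (ev (theta F τ) g) a i j := by
  have h : Sc s (ev (theta F τ) g) (ev (theta F (τ + s)) g) := by
    unfold ev
    induction g using MvPolynomial.induction_on with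
    | C c =>
      rw [coe_eval₂Hom, coe_eval₂Hom, eval₂_C, eval₂_C]
      exact Sc.incl s c
    | add p q hp hq =>
      rw [map_add, map_add]
      exact hp.add hq
    | mul_X p l hp =>
      rw [map_mul, map_mul]
      refine hp.mul ?_
      rw [coe_eval₂Hom, coe_eval₂Hom, eval₂_X, eval₂_X]
      exact Sc.theta τ s l
  exact h a i j

end Pool.Agent.TH603.EL
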