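import Pool.Agent.H15.G.R_seed8.TH603.EL.Defs
import Pool.Agent.H15.G.R_seed8.TH603.EL.Scal2

/-! No cancellation: forms all of whose monomials miss a variable. -/

namespace Pool.Agent.TH603.EL

open MvPolynomial

variable {F : Type} [Field F]

namespace Canc

section low
variable {B : Type} [CommRing B]

theorem low_mul {x y : HahnSeries ℝ B} {a b : ℝ} (hx : Low x a) (hy : Low y b) :
    Low (x * y) (a + b) := by
  intro c hc
  rw [HahnSeries.coeff_mul]
  refine Finset.sum_eq_zero fun ij hij => ?_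
  rw [Finset.mem_antidiagonal] at hij
  obtain ⟨_, _, h3⟩ := hij
  by_cases h1 : ij.1 < a
  · rw [hx _ h1, zero_mul]
  · rw [hy _ (by linarith), mul_zero]

theorem coeff_mul {x y : HahnSeries ℝ B} {a b : ℝ} (hx : Low x a) (hy : Low y b) :
    (x * y).coeff (a + b) = x.coeff a * y.coeff b := by
  rw [HahnSeries.coeff_mul]
  rw [Finset.sum_eq_single (a, b)]
  · intro ij hij hne
    rw [Finset.mem_antidiagonal] at hij
    obtain ⟨_, _, h3⟩ := hij
    rcases lt_trichotomy ij.1 a with h1 | h1 | h1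
    · rw [hx _ h1, zero_mul]
    · exact absurd (Prod.ext h1 (by simp only; linarith)) hne
    · rw [hy _ (by linarith), mul_zero]
  · intro h
    rw [Finset.mem_antidiagonal] at h
    by_contra hc
    exact h ⟨by intro h0; exact hc (by simp only [h0, zero_mul]),
      by intro h0; exact hc (by simp only [h0, mul_zero]), rfl⟩

theorem low_one : Low (1 : HahnSeries ℝ B) 0 := by
  intro c hc
  rw [HahnSeries.coeff_one, if_neg hc.ne]

theorem low_pow {x : HahnSeries ℝ B} {a : ℝ} (hx : Low x a) (n : ℕ) :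
    Low (x ^ n) (n * a) ∧ (x ^ n).coeff (n * a) = x.coeff a ^ n := by
  induction n with
  | zero =>
    rw [pow_zero, pow_zero, Nat.cast_zero, zero_mul]
    exact ⟨low_one, by rw [HahnSeries.coeff_one, if_pos rfl]⟩
  | succ n ih =>
    have e : ((n + 1 : ℕ) : ℝ) * a = n * a + a := by push_cast; ring
    rw [e, pow_succ, pow_succ]
    exact ⟨low_mul ih.1 hx, by rw [coeff_mul ih.1 hx, ih.2]⟩

end low

theorem low_incl {x : HK F} {b : ℝ} (hx : Low x b) : Low (incl x) b := by
  intro c hc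
  ext ⟨i, j⟩
  have h := cf_incl x c i j
  rw [hx c hc, ite_self] at h
  exact h

theorem incl_coeff (x : HK F) (b : ℝ) :
    (incl x).coeff b = AddMonoidAlgebra.single (0, 0) (x.coeff b) := by
  ext ⟨i, j⟩
  have h := cf_incl x b i j
  unfold cf at h
  rw [h, AddMonoidAlgebra.coeff_single, Finsupp.single_apply]
  congr 1
  rw [Prod.mk.injEq]
  exact propext ⟨fun h => ⟨h.1.symm, h.2.symm⟩, fun h => ⟨h.1.symm, h.2.symm⟩⟩

theorem ev_eq (U : ZMod 3 → HR F) (g : MvPolynomial (ZMod 3) (HK F)) (l0 l1 l2 : ZMod 3)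
    (hperm : ∀ f : ZMod 3 → HR F, ∏ l, f l = f l0 * f l1 * f l2) :
    ev U g = ∑ β ∈ g.support, incl (g.coeff β) * (U l0 ^ β l0 * U l1 ^ β l1 * U l2 ^ β l2) := by
  unfold ev
  rw [coe_eval₂Hom, eval₂_eq']
  refine Finset.sum_congr rfl fun β _ => ?_
  rw [hperm]

/-- the leading coefficient -/
theorem lead {m : ℕ} {g : MvPolynomial (ZMod 3) (HK F)} {b c : ℝ} {α : ZMod 3 →₀ ℕ}
    (hlow : ∀ β, Low (g.coeff β) b) (hα : (g.coeff α).coeff b ≠ 0) (U : ZMod 3 → HR F)
    (hU : ∀ l, Low (U l) c) (l0 l1 l2 : ZMod 3)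
    (hperm : ∀ f : ZMod 3 → HR F, ∏ l, f l = f l0 * f l1 * f l2)
    (hdeg : ∀ β ∈ g.support, β l0 + β l1 + β l2 = m)
    (hext : ∀ β γ : ZMod 3 →₀ ℕ, β l0 = γ l0 → β l1 = γ l1 → β l2 = γ l2 → β = γ)
    (p p' : ℤ) (hpp : p ≠ p')
    (h0 : (U l0).coeff c = AddMonoidAlgebra.single (p, 0) 1)
    (h1 : (U l1).coeff c = AddMonoidAlgebra.single (p', 0) 1) (h2 : (U l2).coeff c = 0)
    (hα2 : α l2 = 0) :
    cf (ev U g) (b + m * c) (p * α l0 + p' * α l1) 0 ≠ 0 := by
  classical
  have hαs : α ∈ g.support := by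
    rw [mem_support_iff]
    intro h
    rw [h] at hα
    exact hα rfl
  have key : cf (ev U g) (b + m * c) (p * α l0 + p' * α l1) 0 = (g.coeff α).coeff b := by
    unfold cf
    rw [ev_eq U g l0 l1 l2 hperm, HahnSeries.coeff_sum, AddMonoidAlgebra.coeff_sum,
      Finsupp.finsetSum_apply]
    have hterm : ∀ β ∈ g.support,
        (incl (g.coeff β) * (U l0 ^ β l0 * U l1 ^ β l1 * U l2 ^ β l2)).coeff (b + m * c) =
        AddMonoidAlgebra.single (0, 0) ((g.coeff β).coeff b) *
          (AddMonoidAlgebra.single (p, 0) 1 ^ β l0 * AddMonoidAlgebra.single (p', 0) 1 ^ β l1 *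
            0 ^ β l2) := by
      intro β hβ
      have e1 : (m : ℝ) * c = (β l0 * c + β l1 * c) + β l2 * c := by
        rw [← hdeg β hβ]
        push_cast
        ring
      have q0 := low_pow (hU l0) (β l0)
      have q1 := low_pow (hU l1) (β l1)
      have q2 := low_pow (hU l2) (β l2)
      have q01 := low_mul q0.1 q1.1
      rw [e1, coeff_mul (low_incl (hlow β)) (low_mul q01 q2.1), coeff_mul q01 q2.1,
        coeff_mul q0.1 q1.1, q0.2, q1.2, q2.2, h0, h1, h2, incl_coeff]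
    rw [Finset.sum_congr rfl fun β hβ => by rw [hterm β hβ]]
    have hval : ∀ β ∈ g.support, (AddMonoidAlgebra.single (0, 0) ((g.coeff β).coeff b) *
          (AddMonoidAlgebra.single (p, 0) 1 ^ β l0 * AddMonoidAlgebra.single (p', 0) 1 ^ β l1 *
            0 ^ β l2) : Lau F).coeff (p * α l0 + p' * α l1, 0) =
          if β = α then (g.coeff α).coeff b else 0 := by
      intro β hβ
      by_cases hβ2 : β l2 = 0
      · rw [hβ2, pow_zero, mul_one, AddMonoidAlgebra.single_pow, AddMonoidAlgebra.single_pow,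
          AddMonoidAlgebra.single_mul_single, AddMonoidAlgebra.single_mul_single, one_pow, one_pow,
          one_mul, mul_one, AddMonoidAlgebra.coeff_single, Finsupp.single_apply]
        by_cases hβα : β = α
        · subst hβα
          rw [if_pos, if_pos rfl]
          simp only [Prod.smul_mk, smul_zero, Prod.mk_add_mk, add_zero, zero_add, nsmul_eq_mul]
          rw [mul_comm p, mul_comm p']
        · rw [if_neg, if_neg hβα]
          intro h
          simp only [Prod.smul_mk, smul_zero, Prod.mk_add_mk, add_zero, zero_add, nsmul_eq_mul,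
            Prod.mk.injEq, and_true] at h
          have d1 := hdeg β hβ
          have d2 := hdeg α hαs
          rw [hβ2] at d1
          rw [hα2] at d2
          have d3 : (β l0 : ℤ) + β l1 = α l0 + α l1 := by
            have : β l0 + β l1 = α l0 + α l1 := by omega
            exact_mod_cast this
          have d4 : (p - p') * ((β l0 : ℤ) - α l0) = 0 := by
            linear_combination h - p' * d3
          rcases mul_eq_zero.1 d4 with h5 | h5
          · exact hpp (by linarith)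
          · have d5 : β l0 = α l0 := by
              have : (β l0 : ℤ) = α l0 := by linarith
              exact_mod_cast this
            exact hβα (hext β α d5 (by omega) (by rw [hβ2, hα2]))
      · rw [zero_pow hβ2, mul_zero, mul_zero, if_neg]
        · rfl
        · rintro rfl
          exact hβ2 hα2
    rw [Finset.sum_congr rfl hval, Finset.sum_ite_eq', if_pos hαs]
  rw [key]
  exact hα

/-! ### the theta functions at the radii `0, 1, 2` -/

theorem theta_low (σ c : ℝ) (h : ∀ i : ℤ, c ≤ ex σ i) (l : ZMod 3) : Low (theta F σ l) c := by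
  classical
  intro a ha
  ext ⟨i, j⟩
  have h1 := cf_theta (F := F) σ l a i j
  rw [if_neg] at h1
  · exact h1
  · rintro ⟨_, _, h2⟩
    exact absurd (h i) (by rw [h2]; exact not_le.2 ha)

theorem theta_single (σ c : ℝ) (l : ZMod 3) (k : ℤ) (hkl : (k : ZMod 3) = l) (hkc : ex σ k = c)
    (hk : ∀ i : ℤ, (i : ZMod 3) = l → ex σ i = c → i = k) :
    (theta F σ l).coeff c = AddMonoidAlgebra.single (k, 0) 1 := by
  classical
  ext ⟨i, j⟩
  have h1 := cf_theta (F := F) σ l c i j
  unfold cf at h1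
  rw [h1, AddMonoidAlgebra.coeff_single, Finsupp.single_apply]
  congr 1
  rw [Prod.mk.injEq]
  refine propext ⟨fun h => ⟨(hk i h.2.1 h.2.2).symm, h.1.symm⟩, ?_⟩
  rintro ⟨rfl, rfl⟩
  exact ⟨rfl, hkl, hkc⟩

theorem theta_zero (σ c : ℝ) (l : ZMod 3) (hk : ∀ i : ℤ, (i : ZMod 3) = l → ex σ i ≠ c) :
    (theta F σ l).coeff c = 0 := by
  classical
  ext ⟨i, j⟩
  have h1 := cf_theta (F := F) σ l c i j
  rw [if_neg] at h1
  · exact h1
  · rintro ⟨_, h2, h3⟩
    exact hk i h2 h3

theorem ex_int (k i : ℤ) : ex (k : ℝ) i = (ee (i + k) : ℝ) - ee k := by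
  have h1 : (2 * ee i : ℝ) = i * (i - 1) := by exact_mod_cast two_ee i
  have h2 : (2 * ee k : ℝ) = k * (k - 1) := by exact_mod_cast two_ee k
  have h3 : (2 * ee (i + k) : ℝ) = (i + k) * (i + k - 1) := by exact_mod_cast two_ee (i + k)
  unfold ex
  linarith

theorem ee_nonneg (i : ℤ) : 0 ≤ ee i := by
  have h1 := two_ee i
  rcases le_or_gt i 0 with h | h
  · nlinarith
  · nlinarith

theorem ee_eq_zero {i : ℤ} (h : ee i = 0) : i = 0 ∨ i = 1 := by
  have h1 := two_ee i
  rw [h, mul_zero] at h1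
  rcases mul_eq_zero.1 h1.symm with h2 | h2
  · exact Or.inl h2
  · exact Or.inr (by omega)

theorem prod3 {M : Type} [CommMonoid M] (f : ZMod 3 → M) : ∏ l, f l = f 0 * f 1 * f 2 :=
  Fin.prod_univ_three f

theorem sum3 {M : Type} [AddCommMonoid M] (f : ZMod 3 → M) : ∑ l, f l = f 0 + f 1 + f 2 :=
  Fin.sum_univ_three f

theorem deg3 {m : ℕ} {g : MvPolynomial (ZMod 3) (HK F)} (hg : g.IsHomogeneous m)
    (β : ZMod 3 →₀ ℕ) (hβ : β ∈ g.support) : β 0 + β 1 + β 2 = m := by
  have h1 := hg (mem_support_iff.1 hβ)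
  rw [Finsupp.weight_apply, Finsupp.sum_fintype _ _ (fun i => by simp)] at h1
  rw [← sum3 (fun l => β l)]
  simpa using h1

theorem three : ∀ l : ZMod 3, l = 0 ∨ l = 1 ∨ l = 2 := by decide

theorem ext3 (β γ : ZMod 3 →₀ ℕ) (h0 : β 0 = γ 0) (h1 : β 1 = γ 1) (h2 : β 2 = γ 2) : β = γ := by
  ext l
  rcases three l with rfl | rfl | rfl
  · exact h0
  · exact h1
  · exact h2

theorem at_radius {m : ℕ} {g : MvPolynomial (ZMod 3) (HK F)} {b : ℝ} {α : ZMod 3 →₀ ℕ}
    (hlow : ∀ β, Low (g.coeff β) b) (hα : (g.coeff α).coeff b ≠ 0) (k : ℤ) (l0 l1 l2 : ZMod 3)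
    (hl0 : ((-k : ℤ) : ZMod 3) = l0) (hl1 : ((1 - k : ℤ) : ZMod 3) = l1)
    (hl01 : l0 ≠ l1) (hl02 : l0 ≠ l2) (hl12 : l1 ≠ l2)
    (hperm : ∀ f : ZMod 3 → HR F, ∏ l, f l = f l0 * f l1 * f l2)
    (hdeg : ∀ β ∈ g.support, β l0 + β l1 + β l2 = m)
    (hext : ∀ β γ : ZMod 3 →₀ ℕ, β l0 = γ l0 → β l1 = γ l1 → β l2 = γ l2 → β = γ)
    (hα2 : α l2 = 0) (τ : ℝ) :
    cf (ev (theta F τ) g) (b + m * (-(ee k : ℝ)) + (τ - k) * (((-k) * α l0 + (1 - k) * α l1 : ℤ) : ℝ))
      ((-k) * α l0 + (1 - k) * α l1) 0 ≠ 0 := by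
  have hex : ∀ i : ℤ, -(ee k : ℝ) ≤ ex (k : ℝ) i := by
    intro i
    rw [ex_int]
    have : (0 : ℝ) ≤ ee (i + k) := by exact_mod_cast ee_nonneg (i + k)
    linarith
  have hz : ∀ i : ℤ, ex (k : ℝ) i = -(ee k : ℝ) → i = -k ∨ i = 1 - k := by
    intro i hi
    rw [ex_int] at hi
    have h1 : (ee (i + k) : ℝ) = 0 := by linarith
    have h2 : ee (i + k) = 0 := by exact_mod_cast h1
    rcases ee_eq_zero h2 with h3 | h3
    · exact Or.inl (by omega)
    · exact Or.inr (by omega)
  have hk0 : ex (k : ℝ) (-k) = -(ee k : ℝ) := by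
    rw [ex_int, neg_add_cancel]
    have : ee 0 = 0 := by decide
    rw [this]
    simp
  have hk1 : ex (k : ℝ) (1 - k) = -(ee k : ℝ) := by
    rw [ex_int, sub_add_cancel]
    have : ee 1 = 0 := by decide
    rw [this]
    simp
  have h := lead hlow hα (theta F (k : ℝ)) (theta_low (k : ℝ) _ hex) l0 l1 l2 hperm hdeg hext
    (-k) (1 - k) (by omega)
    (theta_single (k : ℝ) _ l0 (-k) hl0 hk0 (fun i hi hi' => by
      rcases hz i hi' with h1 | h1
      · exact h1
      · exact absurd (by rw [← hi, h1, hl1]) hl01))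
    (theta_single (k : ℝ) _ l1 (1 - k) hl1 hk1 (fun i hi hi' => by
      rcases hz i hi' with h1 | h1
      · exact absurd (by rw [← hi, h1, hl0]) hl01.symm
      · exact h1))
    (theta_zero (k : ℝ) _ l2 (fun i hi hi' => by
      rcases hz i hi' with h1 | h1
      · exact hl02 (by rw [← hi, h1, hl0])
      · exact hl12 (by rw [← hi, h1, hl1])))
    hα2
  have h3 := ev_scal g (k : ℝ) (τ - k) (b + m * (-(ee k : ℝ))) ((-k) * α l0 + (1 - k) * α l1) 0
  rw [add_sub_cancel] at h3
  rw [h3]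
  exact h

end Canc

open Canc in
theorem noncancel {m : ℕ} {g : MvPolynomial (ZMod 3) (HK F)} (hg : g.IsHomogeneous m)
    (hred : Red g) {b : ℝ} {α : ZMod 3 →₀ ℕ} (hlow : ∀ β, Low (g.coeff β) b)
    (hα : (g.coeff α).coeff b ≠ 0) {τ : ℝ} (h0 : 0 ≤ τ) (h1 : τ ≤ 1) :
    ∃ (a : ℝ) (i : ℤ), a ≤ b + 3 * m ∧ cf (ev (theta F τ) g) a i 0 ≠ 0 := by
  classical
  have hαs : α ∈ g.support := by
    rw [mem_support_iff]
    intro h
    rw [h] at hα
    exact hα rfl
  have hd := deg3 hg α hαs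
  have hm : (0 : ℝ) ≤ m := Nat.cast_nonneg m
  obtain ⟨l, hl⟩ := hred α hαs
  rcases three l with rfl | rfl | rfl
  · -- radius 2
    refine ⟨_, _, ?_, at_radius (m := m) hlow hα 2 1 2 0 (by decide) (by decide) (by decide) (by decide)
      (by decide) (fun f => by rw [prod3]; ring)
      (fun β hβ => by have := deg3 hg β hβ; omega)
      (fun β γ e0 e1 e2 => ext3 β γ e2 e0 e1) hl τ⟩
    have e : (α 1 : ℝ) + α 2 = m := by
      rw [← hd, hl]
      push_cast
      ring
    have hee : ee 2 = 1 := by decide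
    rw [hee]
    push_cast
    have ha1 : (0 : ℝ) ≤ α 1 := Nat.cast_nonneg _
    have ha2 : (0 : ℝ) ≤ α 2 := Nat.cast_nonneg _
    nlinarith
  · -- radius 1
    refine ⟨_, _, ?_, at_radius (m := m) hlow hα 1 2 0 1 (by decide) (by decide) (by decide) (by decide)
      (by decide) (fun f => by rw [prod3]; ring)
      (fun β hβ => by have := deg3 hg β hβ; omega)
      (fun β γ e0 e1 e2 => ext3 β γ e1 e2 e0) hl τ⟩
    have e : (α 0 : ℝ) + α 2 = m := by
      rw [← hd, hl]
      push_cast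
      ring
    have hee : ee 1 = 0 := by decide
    rw [hee]
    push_cast
    have ha1 : (0 : ℝ) ≤ α 0 := Nat.cast_nonneg _
    have ha2 : (0 : ℝ) ≤ α 2 := Nat.cast_nonneg _
    nlinarith
  · -- radius 0
    refine ⟨_, _, ?_, at_radius (m := m) hlow hα 0 0 1 2 (by decide) (by decide) (by decide) (by decide)
      (by decide) (fun f => by rw [prod3])
      (fun β hβ => deg3 hg β hβ)
      (fun β γ e0 e1 e2 => ext3 β γ e0 e1 e2) hl τ⟩
    have e : (α 0 : ℝ) + α 1 = m := by
      rw [← hd, hl]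
      push_cast
      ring
    have hee : ee 0 = 0 := by decide
    rw [hee]
    push_cast
    have ha1 : (0 : ℝ) ≤ α 0 := Nat.cast_nonneg _
    have ha2 : (0 : ℝ) ≤ α 1 := Nat.cast_nonneg _
    nlinarith

end Pool.Agent.TH603.EL
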