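import Mathlib
import Pool.Agent.H15.G.R_seed8.TH176.Nag.Stair2

/-! Theta functions in Hahn series: definitions. -/

namespace Pool.Agent.TH603.EL

open MvPolynomial

section defs
variable (F : Type) [Field F]

/-- Laurent polynomials in `z` and `Y` -/
abbrev Lau : Type := AddMonoidAlgebra F (ℤ × ℤ)
/-- Hahn series in `t` with real exponents -/
abbrev HK : Type := HahnSeries ℝ F
/-- Hahn series in `t` with real exponents and Laurent polynomials as coefficients -/
abbrev HR : Type := HahnSeries ℝ (Lau F)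

/-- `t ^ a * z ^ i * Y ^ j` -/
noncomputable def tz (a : ℝ) (i j : ℤ) : HR F :=
  HahnSeries.single a (AddMonoidAlgebra.single (i, j) 1)

variable {F}

/-- the coefficient of `t ^ a * z ^ i * Y ^ j` -/
noncomputable def cf (x : HR F) (a : ℝ) (i j : ℤ) : F := (x.coeff a).coeff (i, j)

theorem cf_ext {x y : HR F} (h : ∀ a i j, cf x a i j = cf y a i j) : x = y := by
  ext a ⟨i, j⟩
  exact h a i j

/-- the inclusion of the constants -/
noncomputable def incl : HK F →+* HR F where
  toFun x := x.map (AddMonoidAlgebra.singleZeroRingHom (R := F) (M := ℤ × ℤ))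
  map_one' := by
    ext a m
    simp only [HahnSeries.map_coeff, HahnSeries.coeff_one]
    split_ifs <;> simp [AddMonoidAlgebra.one_def]
  map_mul' x y := HahnSeries.map_mul
    ((AddMonoidAlgebra.singleZeroRingHom (R := F) (M := ℤ × ℤ)) : F →ₙ+* Lau F)
  map_zero' := by ext; simp
  map_add' x y := by ext; simp

theorem cf_incl (c : HK F) (a : ℝ) (i j : ℤ) :
    cf (incl c) a i j = if i = 0 ∧ j = 0 then c.coeff a else 0 := by
  classical
  have h : ((0 : ℤ × ℤ) = (i, j)) ↔ (i = 0 ∧ j = 0) := by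
    rw [Prod.ext_iff]
    simp only [Prod.fst_zero, Prod.snd_zero]
    constructor <;> rintro ⟨h1, h2⟩ <;> exact ⟨h1.symm, h2.symm⟩
  simp [cf, incl, AddMonoidAlgebra.singleZeroRingHom, Finsupp.single_apply, h]

end defs

/-- the exponents `i (i - 1) / 2` -/
def ee (i : ℤ) : ℤ := i * (i - 1) / 2

theorem two_ee (i : ℤ) : 2 * ee i = i * (i - 1) := by
  unfold ee
  have : 2 ∣ i * (i - 1) := by
    have := Int.even_mul_pred_self i
    exact this.two_dvd
  omega

theorem ee_succ (i : ℤ) : ee (i + 1) = ee i + i := by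
  have h1 := two_ee i
  have h2 := two_ee (i + 1)
  have : 2 * ee (i + 1) = 2 * (ee i + i) := by rw [h2, mul_add, h1]; ring
  omega

/-- the radius-`τ` exponent of `z ^ i` in the theta functions -/
noncomputable def ex (τ : ℝ) (i : ℤ) : ℝ := (ee i : ℝ) + i * τ

theorem ex_bound (τ a : ℝ) (i : ℤ) (h : ex τ i ≤ a) : |(i : ℝ)| ≤ 2 * |a| + 1 + 2 * |τ| := by
  by_contra hc
  push Not at hc
  have h1 : (2 * ee i : ℝ) = i * (i - 1) := by exact_mod_cast two_ee i
  unfold ex at h
  have h2 : (i : ℝ) ^ 2 = |(i : ℝ)| ^ 2 := (sq_abs _).symm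
  have h3 : (0 : ℝ) ≤ |a| := abs_nonneg a
  have h4 : (0 : ℝ) ≤ |τ| := abs_nonneg τ
  have h5 : a ≤ |a| := le_abs_self a
  have h6 : -(|(i : ℝ)| * |τ|) ≤ i * τ := by rw [← abs_mul]; exact neg_abs_le _
  have h7 : (i : ℝ) ≤ |(i : ℝ)| := le_abs_self _
  have h8 : (1 : ℝ) < |(i : ℝ)| := by linarith
  nlinarith

theorem isPWO_of_ex (τ : ℝ) (s : Set ℝ) (hs : s ⊆ Set.range (ex τ)) : s.IsPWO := by
  apply Set.IsWF.isPWO
  rw [Set.isWF_iff_no_descending_seq]
  intro f hf hmem
  choose g hg using fun n => hs (hmem n)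
  have hinj : Function.Injective g := by
    intro m n h
    apply hf.injective
    rw [← hg m, ← hg n, h]
  have hfin : (Set.range g).Finite := by
    apply Set.Finite.subset (Set.finite_Icc (-⌈2 * |f 0| + 1 + 2 * |τ|⌉) ⌈2 * |f 0| + 1 + 2 * |τ|⌉)
    rintro _ ⟨n, rfl⟩
    have h1 : ex τ (g n) ≤ f 0 := by rw [hg n]; exact hf.antitone (Nat.zero_le n)
    have h2 := abs_le.1 (ex_bound τ (f 0) (g n) h1)
    constructor
    · have : (-⌈2 * |f 0| + 1 + 2 * |τ|⌉ : ℝ) ≤ g n := by
        have := Int.le_ceil (2 * |f 0| + 1 + 2 * |τ|)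
        linarith
      exact_mod_cast this
    · have : (g n : ℝ) ≤ ⌈2 * |f 0| + 1 + 2 * |τ|⌉ := by
        have := Int.le_ceil (2 * |f 0| + 1 + 2 * |τ|)
        linarith
      exact_mod_cast this
  exact Set.infinite_range_of_injective hinj hfin

/-- the theta functions at radius `τ` : the sum of `t ^ (i (i - 1) / 2 + i τ) z ^ i` over `i ≡ l`
modulo 3 -/
noncomputable def theta (F : Type) [Field F] (τ : ℝ) (l : ZMod 3) : HR F where
  coeff a := .ofCoeff (Finsupp.onFinset
    ((Finset.Icc (-⌈2 * |a| + 1 + 2 * |τ|⌉) ⌈2 * |a| + 1 + 2 * |τ|⌉) ×ˢ {0})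
    (fun m => by
      classical
      exact if m.2 = 0 ∧ (m.1 : ZMod 3) = l ∧ ex τ m.1 = a then (1 : F) else 0) (by
      intro m hm
      simp only [ne_eq, ite_eq_right_iff, one_ne_zero, imp_false, not_not] at hm
      obtain ⟨h1, h2, h3⟩ := hm
      rw [Finset.mem_product]
      refine ⟨?_, by simpa using h1⟩
      have h4 := abs_le.1 (ex_bound τ a m.1 h3.le)
      have := Int.le_ceil (2 * |a| + 1 + 2 * |τ|)
      rw [Finset.mem_Icc]
      constructor
      · have : (-⌈2 * |a| + 1 + 2 * |τ|⌉ : ℝ) ≤ m.1 := by linarith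
        exact_mod_cast this
      · have : (m.1 : ℝ) ≤ ⌈2 * |a| + 1 + 2 * |τ|⌉ := by linarith
        exact_mod_cast this))
  isPWO_support' := by
    apply isPWO_of_ex τ
    intro a ha
    by_contra hc
    apply ha
    ext m
    simp only [AddMonoidAlgebra.coeff_ofCoeff, Finsupp.onFinset_apply, AddMonoidAlgebra.coeff_zero,
      Finsupp.coe_zero, Pi.zero_apply, ite_eq_right_iff, one_ne_zero, imp_false]
    rintro ⟨_, _, h⟩
    exact hc ⟨m.1, h⟩

open Classical in
theorem cf_theta {F : Type} [Field F] (τ : ℝ) (l : ZMod 3) (a : ℝ) (i j : ℤ) :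
    cf (theta F τ l) a i j = if j = 0 ∧ (i : ZMod 3) = l ∧ ex τ i = a then 1 else 0 := by
  simp only [cf, theta, AddMonoidAlgebra.coeff_ofCoeff, Finsupp.onFinset_apply]

section defs2
variable {F : Type} [Field F]

/-- evaluation of a polynomial with coefficients in `K` -/
noncomputable def ev (X : ZMod 3 → HR F) : MvPolynomial (ZMod 3) (HK F) →+* HR F :=
  eval₂Hom incl X

/-- all coefficients of `t ^ a`, `a < b`, are zero -/
def Low {B : Type} [Zero B] (x : HahnSeries ℝ B) (b : ℝ) : Prop := ∀ a < b, x.coeff a = 0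

/-- the Hesse cubic -/
noncomputable def hes (A : HK F) : MvPolynomial (ZMod 3) (HK F) :=
  X 0 * X 1 * X 2 + C A * (X 0 ^ 3 + X 1 ^ 3 + X 2 ^ 3)

/-- no monomial is divisible by `X 0 * X 1 * X 2` -/
def Red (g : MvPolynomial (ZMod 3) (HK F)) : Prop := ∀ α ∈ g.support, ∃ l, α l = 0

/-- the coordinates of the tube -/
noncomputable def tube (F : Type) [Field F] (τ s : ℝ) (l : ZMod 3) : HR F :=
  theta F τ l + if l = 2 then tz F s 0 1 else 0

/-- the value at a point of the torus, coefficient by coefficient -/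
noncomputable def evp {x y : F} (hx : x ≠ 0) (hy : y ≠ 0) : HR F →+* HK F where
  toFun u := u.map ((Pool.Agent.TH176.Nag.evL x y hx hy : Lau F →ₐ[F] F) : Lau F →+* F)
  map_one' := by
    ext a
    simp only [HahnSeries.map_coeff, HahnSeries.coeff_one]
    split_ifs <;> simp
  map_mul' u v := HahnSeries.map_mul
    (((Pool.Agent.TH176.Nag.evL x y hx hy : Lau F →ₐ[F] F) : Lau F →+* F) : Lau F →ₙ+* F)
  map_zero' := by ext; simp
  map_add' u v := by ext; simp

theorem evp_coeff {x y : F} (hx : x ≠ 0) (hy : y ≠ 0) (u : HR F) (a : ℝ) :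
    (evp hx hy u).coeff a = Pool.Agent.TH176.Nag.evL x y hx hy (u.coeff a) := rfl

/-- the form of degree `d` attached to a polynomial in the affine plane -/
noncomputable def hom (d : ℕ) (f : (ℤ × ℤ) →₀ HK F) : MvPolynomial (ZMod 3) (HK F) :=
  f.sum fun m c => C c * (X 0 ^ ((d : ℤ) - m.1 - m.2).toNat * X 1 ^ m.1.toNat * X 2 ^ m.2.toNat)

end defs2

end Pool.Agent.TH603.EL
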