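import Pool.Agent.H15.G.R_seed8.TH603.EL.Defs
import Pool.Agent.H15.G.R_seed8.TH603.EL.Scal2

/-! The Hesse cubic satisfied by the theta functions (helper986, job 3887). -/

set_option autoImplicit false

namespace Pool.Agent.TH603.EL

open MvPolynomial

variable {F : Type} [Field F]

namespace Hs

theorem cf_tz_mul (x : HR F) (b a : ℝ) (k l i j : ℤ) :
    cf (tz F b k l * x) a i j = cf x (a - b) (i - k) (j - l) := by
  unfold cf tz
  rw [HahnSeries.coeff_single_mul, AddMonoidAlgebra.coeff_single_mul_apply, one_mul]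
  congr 2
  ext
  · simp; ring
  · simp; ring

theorem theta_succ (τ : ℝ) (l : ZMod 3) :
    theta F (τ + 1) l = tz F (-τ) (-1) 0 * theta F τ (l + 1) := by
  classical
  apply cf_ext
  intro a i j
  rw [cf_tz_mul, cf_theta, cf_theta]
  refine if_congr ?_ rfl rfl
  have he : ex (τ + 1) i = ex τ (i - -1) - τ := by
    unfold ex
    rw [sub_neg_eq_add, ee_succ]
    push_cast
    ring
  have hl : ((i - -1 : ℤ) : ZMod 3) = l + 1 ↔ (i : ZMod 3) = l := by
    push_cast
    constructor
    · intro h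
      have := congrArg (fun x => x - 1) h
      simpa using this
    · intro h
      rw [h]; ring
  rw [hl, he, sub_zero]
  constructor
  · rintro ⟨h1, h2, h3⟩
    exact ⟨h1, h2, by linarith⟩
  · rintro ⟨h1, h2, h3⟩
    exact ⟨h1, h2, by linarith⟩


/-- the coefficient at `(0, 0)` -/
noncomputable def c0 : ZeroHom (Lau F) F where
  toFun p := p.coeff (0, 0)
  map_zero' := rfl

/-- the series of the coefficients at `(0, 0)` -/
noncomputable def co (x : HR F) : HK F := x.map c0

theorem co_coeff (x : HR F) (a : ℝ) : (co x).coeff a = cf x a 0 0 := rfl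

theorem cf_add (x y : HR F) (a : ℝ) (i j : ℤ) : cf (x + y) a i j = cf x a i j + cf y a i j := rfl

theorem cf_sub (x y : HR F) (a : ℝ) (i j : ℤ) : cf (x - y) a i j = cf x a i j - cf y a i j := rfl

theorem co_incl_mul (c : HK F) (x : HR F) : co (incl c * x) = c * co x := by
  classical
  ext a
  rw [co_coeff]
  unfold cf
  have h1 : (incl c).support ⊆ c.support := by
    intro b hb hc
    apply hb
    show AddMonoidAlgebra.singleZeroRingHom (c.coeff b) = 0
    rw [hc, map_zero]
  have h2 : (co x).support ⊆ x.support := by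
    intro b hb hc
    apply hb
    rw [co_coeff]
    unfold cf
    rw [hc]
    rfl
  rw [HahnSeries.coeff_mul_left' c.isPWO_support h1,
    HahnSeries.coeff_mul_right' x.isPWO_support h2, AddMonoidAlgebra.coeff_sum,
    Finsupp.finsetSum_apply]
  refine Finset.sum_congr rfl fun ij _ => ?_
  rw [co_coeff]
  unfold cf
  exact AddMonoidAlgebra.coeff_single_zero_mul _ _ _

/-- all exponents of `z` are congruent to `r` modulo 3, and `Y` does not occur -/
def Gr (r : ZMod 3) (x : HR F) : Prop := ∀ a i j, cf x a i j ≠ 0 → j = 0 ∧ (i : ZMod 3) = r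

theorem Gr.mul {r s : ZMod 3} {x y : HR F} (hx : Gr r x) (hy : Gr s y) : Gr (r + s) (x * y) := by
  classical
  intro a i j h
  unfold cf at h
  rw [HahnSeries.coeff_mul, AddMonoidAlgebra.coeff_sum, Finsupp.finsetSum_apply] at h
  obtain ⟨p, _, hp⟩ := Finset.exists_ne_zero_of_sum_ne_zero h
  have h1 : (i, j) ∈ (x.coeff p.1 * y.coeff p.2).coeff.support := Finsupp.mem_support_iff.2 hp
  have h2 := AddMonoidAlgebra.support_coeff_mul_subset _ _ h1
  rw [Finset.mem_add] at h2
  obtain ⟨m, hm, n, hn, hmn⟩ := h2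
  obtain ⟨h3, h4⟩ := hx p.1 m.1 m.2 (Finsupp.mem_support_iff.1 hm)
  obtain ⟨h5, h6⟩ := hy p.2 n.1 n.2 (Finsupp.mem_support_iff.1 hn)
  have h7 := congrArg Prod.fst hmn
  have h8 := congrArg Prod.snd hmn
  simp only [Prod.fst_add, Prod.snd_add] at h7 h8
  constructor
  · omega
  · rw [← h7, Int.cast_add, h4, h6]

theorem Gr.sub {r : ZMod 3} {x y : HR F} (hx : Gr r x) (hy : Gr r y) : Gr r (x - y) := by
  intro a i j h
  by_cases h1 : cf x a i j = 0
  · apply hy a i j
    intro h2
    apply h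
    rw [cf_sub, h1, h2, sub_zero]
  · exact hx a i j h1

theorem Gr.add {r : ZMod 3} {x y : HR F} (hx : Gr r x) (hy : Gr r y) : Gr r (x + y) := by
  intro a i j h
  by_cases h1 : cf x a i j = 0
  · apply hy a i j
    intro h2
    apply h
    rw [cf_add, h1, h2, add_zero]
  · exact hx a i j h1

theorem Gr.theta (τ : ℝ) (l : ZMod 3) : Gr l (theta F τ l) := by
  intro a i j h
  rw [cf_theta] at h
  split_ifs at h with h1
  · exact ⟨h1.1, h1.2.1⟩
  · exact absurd rfl h

theorem Gr.incl (c : HK F) : Gr 0 (incl c) := by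
  intro a i j h
  rw [cf_incl] at h
  split_ifs at h with h1
  · exact ⟨h1.2, by rw [h1.1]; simp⟩
  · exact absurd rfl h

/-- `X0 X1 X2` -/
noncomputable def U : MvPolynomial (ZMod 3) (HK F) := X 0 * X 1 * X 2

/-- `X0 ^ 3 + X1 ^ 3 + X2 ^ 3` -/
noncomputable def S : MvPolynomial (ZMod 3) (HK F) := X 0 ^ 3 + X 1 ^ 3 + X 2 ^ 3

theorem ev_U (x : ZMod 3 → HR F) : ev x U = x 0 * x 1 * x 2 := by
  unfold ev U
  simp only [map_mul, eval₂Hom_X']

theorem ev_S (x : ZMod 3 → HR F) : ev x S = x 0 ^ 3 + x 1 ^ 3 + x 2 ^ 3 := by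
  unfold ev S
  simp only [map_add, map_pow, eval₂Hom_X']

theorem ev_C (x : ZMod 3 → HR F) (c : HK F) : ev x (C c) = incl c := by
  unfold ev
  exact eval₂Hom_C _ _ _

theorem Gr_U (τ : ℝ) : Gr 0 (ev (theta F τ) U) := by
  rw [ev_U]
  have h := ((Gr.theta (F := F) τ 0).mul (Gr.theta τ 1)).mul (Gr.theta τ 2)
  have e : (0 + 1 + 2 : ZMod 3) = 0 := by decide
  rw [e] at h
  exact h

theorem Gr_cube (τ : ℝ) (l : ZMod 3) : Gr 0 (theta F τ l ^ 3) := by
  have h := ((Gr.theta (F := F) τ l).mul (Gr.theta τ l)).mul (Gr.theta τ l)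
  have e : ∀ l : ZMod 3, l + l + l = 0 := by decide
  rw [e] at h
  have e2 : theta F τ l ^ 3 = theta F τ l * theta F τ l * theta F τ l := by ring
  rw [e2]
  exact h

theorem Gr_S (τ : ℝ) : Gr 0 (ev (theta F τ) S) := by
  rw [ev_S]
  exact ((Gr_cube τ 0).add (Gr_cube τ 1)).add (Gr_cube τ 2)

theorem tz_cube (τ : ℝ) : tz F (-τ) (-1) 0 ^ 3 = tz F (-(3 * τ)) (-3) 0 := by
  unfold tz
  rw [HahnSeries.single_pow, AddMonoidAlgebra.single_pow]
  congr 1
  · simp
  · simp

theorem shift_U (τ : ℝ) : ev (theta F (τ + 1)) U = tz F (-(3 * τ)) (-3) 0 * ev (theta F τ) U := by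
  rw [ev_U, ev_U, theta_succ, theta_succ, theta_succ, ← tz_cube]
  have e1 : (0 + 1 : ZMod 3) = 1 := by decide
  have e2 : (1 + 1 : ZMod 3) = 2 := by decide
  have e3 : (2 + 1 : ZMod 3) = 0 := by decide
  rw [e1, e2, e3]
  ring

theorem shift_S (τ : ℝ) : ev (theta F (τ + 1)) S = tz F (-(3 * τ)) (-3) 0 * ev (theta F τ) S := by
  rw [ev_S, ev_S, theta_succ, theta_succ, theta_succ, ← tz_cube]
  have e1 : (0 + 1 : ZMod 3) = 1 := by decide
  have e2 : (1 + 1 : ZMod 3) = 2 := by decide
  have e3 : (2 + 1 : ZMod 3) = 0 := by decide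
  rw [e1, e2, e3]
  ring

/-- a combination of the two cubics without coefficient at `z ^ 0` vanishes -/
theorem vanish (τ : ℝ) (c c' : HK F)
    (h0 : co (incl c * ev (theta F τ) U - incl c' * ev (theta F τ) S) = 0) :
    incl c * ev (theta F τ) U - incl c' * ev (theta F τ) S = 0 := by
  have hy : ∀ τ' : ℝ, ev (theta F τ') (C c * U - C c' * S) =
      incl c * ev (theta F τ') U - incl c' * ev (theta F τ') S := by
    intro τ'
    rw [map_sub, map_mul, map_mul, ev_C, ev_C]
  have hG : Gr 0 (ev (theta F τ) (C c * U - C c' * S)) := by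
    rw [hy]
    have h1 := (Gr.incl c).mul (Gr_U (F := F) τ)
    have h2 := (Gr.incl c').mul (Gr_S (F := F) τ)
    rw [add_zero] at h1 h2
    exact h1.sub h2
  have hs : ev (theta F (τ + 1)) (C c * U - C c' * S) =
      tz F (-(3 * τ)) (-3) 0 * ev (theta F τ) (C c * U - C c' * S) := by
    rw [hy, hy, shift_U, shift_S]
    ring
  have hrec : ∀ (a : ℝ) (i : ℤ), cf (ev (theta F τ) (C c * U - C c' * S)) a i 0 =
      cf (ev (theta F τ) (C c * U - C c' * S)) (a + i + 3 * τ) (i + 3) 0 := by
    intro a i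
    have h1 := ev_scal (C c * U - C c' * S) τ 1 a i 0
    rw [hs, cf_tz_mul] at h1
    rw [← h1]
    congr 1
    · ring
  rw [← hy] at h0 ⊢
  have h00 : ∀ a, cf (ev (theta F τ) (C c * U - C c' * S)) a 0 0 = 0 := by
    intro a
    rw [← co_coeff, h0]
    rfl
  have hall : ∀ (k : ℤ) (a : ℝ), cf (ev (theta F τ) (C c * U - C c' * S)) a (3 * k) 0 = 0 := by
    intro k
    induction k using Int.induction_on with
    | zero =>
      intro a
      exact h00 a
    | succ k ih =>
      intro a
      have h1 := hrec (a - (3 * (k : ℤ) : ℤ) - 3 * τ) (3 * (k : ℤ))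
      rw [ih] at h1
      have e1 : a - ((3 * (k : ℤ) : ℤ) : ℝ) - 3 * τ + ((3 * (k : ℤ) : ℤ) : ℝ) + 3 * τ = a := by ring
      have e2 : 3 * (k : ℤ) + 3 = 3 * ((k : ℤ) + 1) := by ring
      rw [e1, e2] at h1
      exact h1.symm
    | pred k ih =>
      intro a
      have h1 := hrec a (3 * (-(k : ℤ) - 1))
      have e2 : 3 * (-(k : ℤ) - 1) + 3 = 3 * (-(k : ℤ)) := by ring
      rw [e2, ih] at h1
      exact h1
  apply cf_ext
  intro a i j
  have hz : cf (0 : HR F) a i j = 0 := rfl
  rw [hz]
  by_contra h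
  obtain ⟨h1, h2⟩ := hG a i j h
  have h3 : (3 : ℤ) ∣ i := by
    have := (ZMod.intCast_zmod_eq_zero_iff_dvd i 3).1 h2
    exact_mod_cast this
  obtain ⟨k, rfl⟩ := h3
  rw [h1] at h
  exact h (hall k a)

/-! ### Leading terms at radius 0 -/

theorem low_mul {B : Type} [Semiring B] {x y : HahnSeries ℝ B} {a b : ℝ} (hx : Low x a)
    (hy : Low y b) : Low (x * y) (a + b) := by
  intro c hc
  rw [HahnSeries.coeff_mul]
  apply Finset.sum_eq_zero
  intro p hp
  rw [Finset.mem_antidiagonal] at hp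
  by_cases h1 : p.1 < a
  · rw [hx _ h1, zero_mul]
  · have h2 : p.2 < b := by
      have := hp.2.2
      push Not at h1
      linarith
    rw [hy _ h2, mul_zero]

theorem low_coeff_mul {B : Type} [Semiring B] {x y : HahnSeries ℝ B} {a b : ℝ} (hx : Low x a)
    (hy : Low y b) : (x * y).coeff (a + b) = x.coeff a * y.coeff b := by
  rw [HahnSeries.coeff_mul]
  by_cases h : x.coeff a = 0 ∨ y.coeff b = 0
  · have h0 : x.coeff a * y.coeff b = 0 := by
      rcases h with h | h
      · rw [h, zero_mul]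
      · rw [h, mul_zero]
    rw [h0]
    apply Finset.sum_eq_zero
    intro p hp
    rw [Finset.mem_antidiagonal] at hp
    rcases lt_trichotomy p.1 a with h1 | h1 | h1
    · rw [hx _ h1, zero_mul]
    · have h2 : p.2 = b := by
        have := hp.2.2
        linarith
      rw [h1, h2, h0]
    · have h2 : p.2 < b := by
        have := hp.2.2
        linarith
      rw [hy _ h2, mul_zero]
  · push Not at h
    rw [Finset.sum_eq_single (a, b)]
    · intro p hp hne
      rw [Finset.mem_antidiagonal] at hp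
      rcases lt_trichotomy p.1 a with h1 | h1 | h1
      · rw [hx _ h1, zero_mul]
      · exfalso
        apply hne
        apply Prod.ext h1
        have := hp.2.2
        show p.2 = b
        linarith
      · have h2 : p.2 < b := by
          have := hp.2.2
          linarith
        rw [hy _ h2, mul_zero]
    · intro hn
      exfalso
      apply hn
      rw [Finset.mem_antidiagonal]
      exact ⟨h.1, h.2, rfl⟩

theorem ee_nonneg (i : ℤ) : 0 ≤ ee i := by
  have h1 := two_ee i
  rcases lt_or_ge i 1 with h | h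
  · nlinarith
  · nlinarith

theorem ee_pos (i : ℤ) (h0 : i ≠ 0) (h1 : i ≠ 1) : 1 ≤ ee i := by
  have h2 := two_ee i
  have h3 : 0 < i * (i - 1) := by
    rcases lt_or_ge i 1 with h | h
    · nlinarith [lt_of_le_of_ne (Int.lt_add_one_iff.1 (by linarith : i < 0 + 1)) h0]
    · have h4 : 1 < i := lt_of_le_of_ne h (Ne.symm h1)
      nlinarith
  omega

theorem low_theta_zero (l : ZMod 3) : Low (theta F 0 l) 0 := by
  intro a ha
  ext ⟨i, j⟩
  show cf (theta F 0 l) a i j = 0
  rw [cf_theta, if_neg]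
  rintro ⟨_, _, h⟩
  unfold ex at h
  have h1 : (0 : ℝ) ≤ (ee i : ℝ) := by exact_mod_cast ee_nonneg i
  linarith

theorem low_theta_two : Low (theta F 0 2) 1 := by
  intro a ha
  ext ⟨i, j⟩
  show cf (theta F 0 2) a i j = 0
  rw [cf_theta, if_neg]
  rintro ⟨_, h2, h⟩
  have h0 : i ≠ 0 := by
    rintro rfl
    revert h2
    decide
  have h0' : i ≠ 1 := by
    rintro rfl
    revert h2
    decide
  unfold ex at h
  have h1 : (1 : ℝ) ≤ (ee i : ℝ) := by exact_mod_cast ee_pos i h0 h0'
  linarith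

theorem low_U : Low (ev (theta F 0) U) 1 := by
  rw [ev_U]
  have h := low_mul (low_mul (low_theta_zero (F := F) 0) (low_theta_zero 1)) (low_theta_two (F := F))
  rw [add_zero, zero_add] at h
  exact h

theorem low_cube (l : ZMod 3) : Low (theta F 0 l ^ 3) 0 := by
  have h := low_mul (low_mul (low_theta_zero (F := F) l) (low_theta_zero l)) (low_theta_zero l)
  rw [add_zero, add_zero] at h
  have e2 : theta F 0 l ^ 3 = theta F 0 l * theta F 0 l * theta F 0 l := by ring
  rw [e2]
  exact h

theorem coeff_cube (l : ZMod 3) : (theta F 0 l ^ 3).coeff 0 = (theta F 0 l).coeff 0 ^ 3 := by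
  have h1 := low_coeff_mul (low_theta_zero (F := F) l) (low_theta_zero l)
  have h2 := low_mul (low_theta_zero (F := F) l) (low_theta_zero l)
  rw [add_zero] at h1 h2
  have h3 := low_coeff_mul h2 (low_theta_zero (F := F) l)
  rw [add_zero, h1] at h3
  have e2 : theta F 0 l ^ 3 = theta F 0 l * theta F 0 l * theta F 0 l := by ring
  rw [e2, h3]
  ring

theorem theta_zero_coeff (l : ZMod 3) (i : ℤ) (hi : i = 0 ∨ i = 1) (hl : (i : ZMod 3) = l) :
    (theta F 0 l).coeff 0 = AddMonoidAlgebra.single (i, 0) 1 := by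
  classical
  ext ⟨k, j⟩
  show cf (theta F 0 l) 0 k j = _
  rw [cf_theta, AddMonoidAlgebra.coeff_single, Finsupp.single_apply]
  have hei : ee i = 0 := by rcases hi with rfl | rfl <;> rfl
  by_cases h : j = 0 ∧ (k : ZMod 3) = l ∧ ex 0 k = 0
  · rw [if_pos h, if_pos]
    obtain ⟨h1, h2, h3⟩ := h
    unfold ex at h3
    have h4 : ee k = 0 := by
      have : (ee k : ℝ) = 0 := by linarith
      exact_mod_cast this
    have h5 : k = 0 ∨ k = 1 := by
      by_contra hc
      push Not at hc
      have := ee_pos k hc.1 hc.2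
      omega
    have h6 : (k : ZMod 3) = (i : ZMod 3) := h2.trans hl.symm
    have h7 : k = i := by
      rcases h5 with rfl | rfl <;> rcases hi with rfl | rfl
      · rfl
      · exact absurd h6 (by decide)
      · exact absurd h6 (by decide)
      · rfl
    rw [h7, h1]
  · rw [if_neg h, if_neg]
    intro h1
    apply h
    have h2 : i = k := congrArg Prod.fst h1
    have h3 : (0 : ℤ) = j := congrArg Prod.snd h1
    refine ⟨h3.symm, by rw [← h2]; exact hl, ?_⟩
    unfold ex
    rw [← h2, hei]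
    simp

theorem coeff_S : cf (ev (theta F 0) S) 0 0 0 = 1 := by
  rw [ev_S, cf_add, cf_add]
  have h0 : cf (theta F 0 0 ^ 3) 0 0 0 = 1 := by
    unfold cf
    rw [coeff_cube, theta_zero_coeff 0 0 (Or.inl rfl) (by decide), AddMonoidAlgebra.single_pow]
    simp
  have h1 : cf (theta F 0 1 ^ 3) 0 0 0 = 0 := by
    unfold cf
    rw [coeff_cube, theta_zero_coeff 1 1 (Or.inr rfl) (by decide), AddMonoidAlgebra.single_pow]
    simp
  have h2 : cf (theta F 0 2 ^ 3) 0 0 0 = 0 := by
    unfold cf
    rw [coeff_cube, low_theta_two 0 (by norm_num)]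
    simp
  rw [h0, h1, h2]
  ring

theorem co_radius (g : MvPolynomial (ZMod 3) (HK F)) (τ : ℝ) :
    co (ev (theta F τ) g) = co (ev (theta F 0) g) := by
  ext a
  rw [co_coeff, co_coeff]
  have h := ev_scal g 0 τ a 0 0
  rw [zero_add] at h
  simpa using h

end Hs

open Hs

theorem exists_hesse (F : Type) [Field F] (τ : ℝ) :
    ∃ A : HK F, Low A 1 ∧ ev (theta F τ) (hes A) = 0 := by
  obtain ⟨ku, hku⟩ : ∃ ku : HK F, ku = co (ev (theta F τ) U) := ⟨_, rfl⟩
  obtain ⟨ks, hks⟩ : ∃ ks : HK F, ks = co (ev (theta F τ) S) := ⟨_, rfl⟩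
  have hU1 : Low ku 1 := by
    intro a ha
    rw [hku, co_radius, co_coeff]
    unfold cf
    rw [low_U a ha]
    rfl
  have hS0 : Low ks 0 := by
    intro a ha
    rw [hks, co_radius, co_coeff]
    unfold cf
    rw [ev_S]
    have h := low_cube (F := F) 0 a ha
    have h' := low_cube (F := F) 1 a ha
    have h'' := low_cube (F := F) 2 a ha
    rw [HahnSeries.coeff_add, HahnSeries.coeff_add, h, h', h'']
    simp
  have hS1 : ks.coeff 0 = 1 := by
    rw [hks, co_radius, co_coeff, coeff_S]
  have hks0 : ks ≠ 0 := by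
    intro h
    rw [h] at hS1
    simp at hS1
  have hvan := vanish τ ks ku (by
    ext a
    have h1 : co (incl ks * ev (theta F τ) U - incl ku * ev (theta F τ) S) =
        co (incl ks * ev (theta F τ) U) - co (incl ku * ev (theta F τ) S) := by
      ext b
      rfl
    rw [h1, co_incl_mul, co_incl_mul, ← hku, ← hks, mul_comm, sub_self])
  refine ⟨-(ku * ks⁻¹), ?_, ?_⟩
  · -- the order
    obtain ⟨A, hA⟩ : ∃ A : HK F, A = -(ku * ks⁻¹) := ⟨_, rfl⟩
    rw [← hA]
    by_cases hA0 : A = 0
    · rw [hA0]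
      intro a _
      rfl
    · have h1 : A * ks = -ku := by
        rw [hA, neg_mul, mul_assoc, inv_mul_cancel₀ hks0, mul_one]
      have h2 : (A * ks).order = A.order + ks.order := HahnSeries.order_mul hA0 hks0
      have h3 : ks.order = 0 := by
        apply le_antisymm
        · exact HahnSeries.order_le_of_coeff_ne_zero (by rw [hS1]; exact one_ne_zero)
        · by_contra hc
          push Not at hc
          have h4 := hS0 _ hc
          exact hks0 (HahnSeries.coeff_order_eq_zero.1 h4)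
      have h4 : 1 ≤ (A * ks).order := by
        by_contra hc
        push Not at hc
        have h5 : (A * ks).coeff (A * ks).order = 0 := by
          rw [h1] at hc ⊢
          rw [HahnSeries.coeff_neg, hU1 _ hc, neg_zero]
        exact mul_ne_zero hA0 hks0 (HahnSeries.coeff_order_eq_zero.1 h5)
      intro a ha
      apply HahnSeries.coeff_eq_zero_of_lt_order
      rw [h2, h3, add_zero] at h4
      linarith
  · have h1 : ev (theta F τ) (hes (-(ku * ks⁻¹))) = incl ks⁻¹ *
        (incl ks * ev (theta F τ) U - incl ku * ev (theta F τ) S) := by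
      have h2 : hes (-(ku * ks⁻¹)) = U + C (-(ku * ks⁻¹)) * S := rfl
      have h3 : incl ks⁻¹ * incl ks = 1 := by
        rw [← map_mul, inv_mul_cancel₀ hks0, map_one]
      rw [h2, map_add, map_mul, ev_C, map_neg, map_mul, mul_sub, ← mul_assoc, h3]
      ring
    rw [h1, hvan, mul_zero]

end Pool.Agent.TH603.EL
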