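import Pool.Agent.H15.G.R_seed8.TH603.EL.Defs

/-! Routine lemmas on the vanishing of low coefficients. -/

namespace Pool.Agent.TH603.EL

open MvPolynomial

section gen
variable {B : Type} [CommRing B]

theorem Low.mono {x : HahnSeries ℝ B} {a b : ℝ} (h : Low x b) (hab : a ≤ b) : Low x a :=
  fun c hc => h c (hc.trans_le hab)

theorem low_zero (b : ℝ) : Low (0 : HahnSeries ℝ B) b := fun _ _ => rfl

theorem Low.add {x y : HahnSeries ℝ B} {b : ℝ} (hx : Low x b) (hy : Low y b) : Low (x + y) b := by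
  intro a ha
  rw [HahnSeries.coeff_add, hx a ha, hy a ha, add_zero]

theorem Low.neg {x : HahnSeries ℝ B} {b : ℝ} (hx : Low x b) : Low (-x) b := by
  intro a ha
  rw [HahnSeries.coeff_neg, hx a ha, neg_zero]

theorem Low.sub {x y : HahnSeries ℝ B} {b : ℝ} (hx : Low x b) (hy : Low y b) : Low (x - y) b := by
  intro a ha
  rw [HahnSeries.coeff_sub, hx a ha, hy a ha, sub_zero]

theorem Low.sum {κ : Type*} (s : Finset κ) (f : κ → HahnSeries ℝ B) {b : ℝ}
    (h : ∀ k ∈ s, Low (f k) b) : Low (∑ k ∈ s, f k) b := by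
  intro a ha
  rw [HahnSeries.coeff_sum]
  exact Finset.sum_eq_zero fun k hk => h k hk a ha

theorem Low.mul {x y : HahnSeries ℝ B} {a b : ℝ} (hx : Low x a) (hy : Low y b) :
    Low (x * y) (a + b) := by
  intro c hc
  rw [HahnSeries.coeff_mul]
  apply Finset.sum_eq_zero
  rintro ⟨u, v⟩ huv
  rw [Finset.mem_addAntidiagonal] at huv
  obtain ⟨_, _, h⟩ := huv
  simp only at h ⊢
  rcases lt_or_ge u a with h1 | h1
  · rw [hx u h1, zero_mul]
  · rw [hy v (by linarith), mul_zero]

theorem Low.coeff_mul {x y : HahnSeries ℝ B} {a b : ℝ} (hx : Low x a) (hy : Low y b) :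
    (x * y).coeff (a + b) = x.coeff a * y.coeff b := by
  rw [HahnSeries.coeff_mul]
  by_cases h : x.coeff a ≠ 0 ∧ y.coeff b ≠ 0
  · rw [Finset.sum_eq_single (a, b)]
    · rintro ⟨u, v⟩ huv hne
      rw [Finset.mem_addAntidiagonal] at huv
      obtain ⟨_, _, h⟩ := huv
      simp only at h ⊢
      rcases lt_trichotomy u a with h1 | h1 | h1
      · rw [hx u h1, zero_mul]
      · exact absurd (Prod.ext h1 (by simp only; linarith)) hne
      · rw [hy v (by linarith), mul_zero]
    · intro h1
      exfalso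
      apply h1
      rw [Finset.mem_addAntidiagonal]
      exact ⟨h.1, h.2, rfl⟩
  · rw [Finset.sum_eq_zero]
    · rw [not_and_or, not_not, not_not] at h
      rcases h with h | h <;> simp [h]
    · rintro ⟨u, v⟩ huv
      rw [Finset.mem_addAntidiagonal] at huv
      obtain ⟨h2, h3, h4⟩ := huv
      simp only at h4 ⊢
      rcases lt_trichotomy u a with h1 | h1 | h1
      · rw [hx u h1, zero_mul]
      · exfalso
        apply h
        have h5 : v = b := by linarith
        subst h1 h5
        exact ⟨h2, h3⟩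
      · rw [hy v (by linarith), mul_zero]

theorem low_one : Low (1 : HahnSeries ℝ B) 0 := by
  intro a ha
  rw [HahnSeries.coeff_one, if_neg ha.ne]

theorem Low.pow {x : HahnSeries ℝ B} {a : ℝ} (hx : Low x a) (n : ℕ) : Low (x ^ n) (n * a) := by
  induction n with
  | zero => simpa using low_one
  | succ n ih =>
    rw [pow_succ]
    have := ih.mul hx
    convert this using 1
    push_cast; ring

theorem Low.coeff_pow {x : HahnSeries ℝ B} {a : ℝ} (hx : Low x a) (n : ℕ) :
    (x ^ n).coeff (n * a) = x.coeff a ^ n := by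
  induction n with
  | zero => simp
  | succ n ih =>
    have := (hx.pow n).coeff_mul hx
    rw [pow_succ, pow_succ, ← ih, ← this]
    congr 1
    push_cast; ring

theorem Low.pow_zero' {x : HahnSeries ℝ B} (hx : Low x 0) (n : ℕ) : Low (x ^ n) 0 := by
  simpa using hx.pow n

theorem Low.prod_zero {κ : Type*} (s : Finset κ) (f : κ → HahnSeries ℝ B)
    (h : ∀ k ∈ s, Low (f k) 0) : Low (∏ k ∈ s, f k) 0 := by
  classical
  induction s using Finset.induction_on with
  | empty => simpa using low_one
  | insert a s ha ih =>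
    rw [Finset.prod_insert ha]
    have := (h a (Finset.mem_insert_self _ _)).mul (ih fun k hk => h k (Finset.mem_insert_of_mem hk))
    simpa using this

theorem low_single (a : ℝ) (c : B) : Low (HahnSeries.single a c) a := by
  intro b hb
  exact HahnSeries.coeff_single_of_ne hb.ne

end gen

section spec
variable {F : Type} [Field F]

theorem Low.incl {c : HK F} {b : ℝ} (hc : Low c b) : Low (incl c) b := by
  intro a ha
  ext ⟨i, j⟩
  have := cf_incl c a i j
  unfold cf at this
  rw [this, hc a ha]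
  simp

theorem low_tz (a : ℝ) (i j : ℤ) : Low (tz F a i j) a := low_single _ _

theorem coeff_tz (a : ℝ) (i j : ℤ) :
    (tz F a i j).coeff a = AddMonoidAlgebra.single (i, j) 1 := by
  simp [tz]

theorem ex_nonneg {τ : ℝ} (h0 : 0 ≤ τ) (h1 : τ ≤ 1) (i : ℤ) : 0 ≤ ex τ i := by
  unfold ex
  have h2 : (2 * ee i : ℝ) = i * (i - 1) := by exact_mod_cast two_ee i
  rcases le_or_gt 0 i with h | h
  · have h3 : (0 : ℝ) ≤ i := by exact_mod_cast h
    rcases eq_or_lt_of_le h with h4 | h4
    · subst h4; simp [ee]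
    · have h5 : (1 : ℝ) ≤ i := by exact_mod_cast h4
      nlinarith
  · have h3 : (i : ℝ) ≤ -1 := by
      have : i ≤ -1 := by omega
      exact_mod_cast this
    nlinarith

theorem low_theta {τ : ℝ} (h0 : 0 ≤ τ) (h1 : τ ≤ 1) (l : ZMod 3) : Low (theta F τ l) 0 := by
  intro a ha
  ext ⟨i, j⟩
  have := cf_theta (F := F) τ l a i j
  unfold cf at this
  rw [this, if_neg]
  · simp
  · rintro ⟨_, _, h⟩
    have := ex_nonneg h0 h1 i
    linarith

theorem low_ev {X : ZMod 3 → HR F} (hX : ∀ l, Low (X l) 0) {g : MvPolynomial (ZMod 3) (HK F)}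
    {b : ℝ} (hg : ∀ β, Low (g.coeff β) b) : Low (ev X g) b := by
  unfold ev
  rw [coe_eval₂Hom, eval₂_eq]
  apply Low.sum
  intro α _
  have := (hg α).incl.mul (Low.prod_zero α.support (fun l => X l ^ α l)
    fun l _ => (hX l).pow_zero' (α l))
  simpa using this

theorem ev_C (X : ZMod 3 → HR F) (c : HK F) : ev X (C c) = incl c := by simp [ev]

theorem ev_X (X : ZMod 3 → HR F) (l : ZMod 3) : ev X (MvPolynomial.X l) = X l := by simp [ev]

end spec

end Pool.Agent.TH603.EL
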