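import Pool.Agent.H15.G.R_seed8.TH603.EL.Lead0
import Pool.Agent.H15.G.R_seed8.TH603.EL.Scal3
import Pool.Agent.H15.G.R_seed8.TH603.EL.Canc
import Pool.Agent.H15.G.R_seed8.TH603.EL.Hesse
import Pool.Agent.H15.G.R_seed8.TH603.EL.Dec
import Pool.Agent.H15.G.R_seed8.TH603.EL.TubeH
import Pool.Agent.H15.G.R_seed8.TH603.EL.TubeD

namespace Pool.Agent.TH603.EL

open MvPolynomial

variable {F : Type} [Field F]

theorem tube_lead {τ : ℝ} (h0 : 0 < τ) (h1 : τ < 1) {d : ℕ} {f : MvPolynomial (ZMod 3) (HK F)}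
    (hf : f.IsHomogeneous d) (hne : f ≠ 0) {s : ℝ} (hs : 3 * d + 3 < s) :
    ∃ a : ℝ, (ev (tube F τ s) f).coeff a ≠ 0 ∧ ∀ i j : ℤ, cf (ev (tube F τ s) f) a i j ≠ 0 →
      0 ≤ j ∧ -(((d : ℝ) - 3 * j) * (1 + τ)) ≤ (i : ℝ) - j ∧
        (i : ℝ) - j ≤ ((d : ℝ) - 3 * j) * (2 - τ) :=
  tube_lead_of (fun hg τ _ hlow _ _ h => exponent_bound hg τ hlow h)
    (fun hg hr _ _ hlow hα _ h0 h1 => noncancel hg hr hlow hα h0 h1)
    (fun τ => exists_hesse F τ) (fun hA _ _ hf => decomp hA hf)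
    (fun hA _ h0 h1 hrel _ hs => tube_hes hA h0 h1 hrel hs)
    (fun hlow _ h0 h1 _ hs => tube_diff hlow h0 h1 hs) h0 h1 hf hne hs

end Pool.Agent.TH603.EL
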