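import Pool.Agent.H15.G.R_seed8.TH603.EL.Key
import Pool.Agent.H15.G.R_seed8.TH181.Nag.Tri
import Pool.Agent.H15.G.R_seed8.TH176.Nag.Main

/-! Emptiness in the plane for all `n ≥ 9`. -/

namespace Pool.Agent.TH603.EL

open Pool.Agent.TH176.Nag Pool.Agent.TH181.Nag

/-- the shapes `(3 √n - 9, 18 - 3 √n)` -/
theorem PS_nine {ι : Type} [Fintype ι] (hn : 9 ≤ Fintype.card ι) :
    PS (√(Fintype.card ι)) ι (3 * √(Fintype.card ι) - 9) (18 - 3 * √(Fintype.card ι)) := by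
  have h9 : (3 : ℝ) ≤ √(Fintype.card ι) := by
    rw [Real.le_sqrt' (by norm_num)]
    have : ((9 : ℕ) : ℝ) ≤ Fintype.card ι := by exact_mod_cast hn
    norm_num at this ⊢
    exact this
  set r : ℝ := √(Fintype.card ι) with hr
  have hr2 : r ^ 2 = Fintype.card ι := Real.sq_sqrt (Nat.cast_nonneg _)
  refine PS.stepA 1 9 isCoprime_one_left (by norm_num) (by push_cast; linarith)
    (by push_cast; linarith) (by linarith) ?_
  have e1 : ((1 : ℤ) : ℝ) * (((1 : ℤ) : ℝ) * (3 * r - 9) + ((9 : ℤ) : ℝ)) = 3 * r := by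
    push_cast; ring
  have e2 : (((9 : ℤ) : ℝ) - ((1 : ℤ) : ℝ) * (18 - 3 * r)) * (((1 : ℤ) : ℝ) * (3 * r - 9) +
      ((9 : ℤ) : ℝ)) / (3 * r - 9 + (18 - 3 * r)) = r ^ 2 - 3 * r := by
    push_cast
    have : (3 * r - 9 + (18 - 3 * r) : ℝ) = 9 := by ring
    rw [this]; ring
  rw [e1, e2]
  apply PS.final (by linarith) (by nlinarith)
  rw [hr2]; ring

theorem Emp_plane' {ι : Type} [Fintype ι] (hn : 9 ≤ Fintype.card ι) {w : ι → ℕ} {d : ℕ}
    (hd : 0 < d) (h : √(Fintype.card ι) * (d : ℝ) < ∑ i, (w i : ℝ)) :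
    Emp w {m : ℤ × ℤ | 0 ≤ m.1 ∧ 0 ≤ m.2 ∧ m.1 + m.2 ≤ (d : ℤ)} := by
  have hP := PS_nine hn
  set r : ℝ := √(Fintype.card ι) with hr
  -- an integer `k` with `3 < 3 r - 9 + k < 6`
  obtain ⟨k, hk1, hk2⟩ : ∃ k : ℤ, 3 < 3 * r - 9 + k ∧ 3 * r - 9 + k < 6 := by
    refine ⟨⌊12 - 3 * r⌋ + 1, ?_, ?_⟩
    · push_cast
      have := Int.lt_floor_add_one (12 - 3 * r)
      linarith
    · push_cast
      have := Int.floor_le (12 - 3 * r)
      linarith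
  have hS : PS r ι (3 * r - 9 + k) (18 - 3 * r - k) := by
    refine PS.shear (-k) ?_
    have e1 : 3 * r - 9 + (k : ℝ) + ((-k : ℤ) : ℝ) = 3 * r - 9 := by push_cast; ring
    have e2 : 18 - 3 * r - (k : ℝ) - ((-k : ℤ) : ℝ) = 18 - 3 * r := by push_cast; ring
    rw [e1, e2]
    exact hP
  set τ : ℝ := (3 * r - 9 + k) / 3 - 1 with hτ
  have h0 : 0 < τ := by rw [hτ]; linarith
  have h1 : τ < 1 := by rw [hτ]; linarith
  apply Emp_key h0 h1
  have hd' : (0 : ℝ) < d := by exact_mod_cast hd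
  have h2 := hS w d hd' h (-((d : ℝ) * (1 + τ)))
  have e3 : √(3 * r - 9 + k + (18 - 3 * r - k)) = 3 := by
    have : (3 * r - 9 + k + (18 - 3 * r - k) : ℝ) = 3 ^ 2 := by ring
    rw [this, Real.sqrt_sq (by norm_num)]
  rw [e3] at h2
  have e4 : -((d : ℝ) * (1 + τ)) + d * 3 = d * (2 - τ) := by ring
  have e5 : 3 * r - 9 + (k : ℝ) = 3 * (1 + τ) := by rw [hτ]; ring
  have e6 : 18 - 3 * r - (k : ℝ) = 3 * (2 - τ) := by rw [hτ]; ring
  rw [e4, e5, e6] at h2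
  exact h2

end Pool.Agent.TH603.EL
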