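import Pool.Agent.H15.G.R_seed8.TH603.EL.Defs

/-! The lead form of a form of degree `d` along the tube, from the other pieces. -/

namespace Pool.Agent.TH603.EL

open MvPolynomial

variable {F : Type} [Field F]

namespace Lead

theorem lmul {B : Type} [NonUnitalNonAssocSemiring B] {x y : HahnSeries ℝ B} {a b : ℝ}
    (hx : Low x a) (hy : Low y b) : Low (x * y) (a + b) := by
  intro c hc
  rw [HahnSeries.coeff_mul]
  refine Finset.sum_eq_zero fun p hp => ?_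
  have hp3 : p.1 + p.2 = c := (Finset.mem_antidiagonal.mp hp).2.2
  rcases lt_or_ge p.1 a with h | h
  · rw [hx _ h, zero_mul]
  · rw [hy _ (by linarith), mul_zero]

theorem lcoeff_mul {B : Type} [NonUnitalNonAssocSemiring B] {x y : HahnSeries ℝ B} {a b : ℝ}
    (hx : Low x a) (hy : Low y b) : (x * y).coeff (a + b) = x.coeff a * y.coeff b := by
  rw [HahnSeries.coeff_mul]
  rw [Finset.sum_eq_single (a, b)]
  · intro p hp hne
    have hp3 : p.1 + p.2 = a + b := (Finset.mem_antidiagonal.mp hp).2.2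
    rcases lt_trichotomy p.1 a with h | h | h
    · rw [hx _ h, zero_mul]
    · exfalso
      apply hne
      exact Prod.ext h (by linarith)
    · rw [hy _ (by linarith), mul_zero]
  · intro hp
    by_contra hne
    apply hp
    rw [Finset.mem_antidiagonal]
    refine ⟨?_, ?_, rfl⟩
    · rw [HahnSeries.mem_support]
      intro h
      apply hne
      show x.coeff a * y.coeff b = 0
      rw [h, zero_mul]
    · rw [HahnSeries.mem_support]
      intro h
      apply hne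
      show x.coeff a * y.coeff b = 0
      rw [h, mul_zero]

theorem lpow {B : Type} [Semiring B] {x : HahnSeries ℝ B} {a : ℝ} (hx : Low x a) (n : ℕ) :
    Low (x ^ n) (n * a) ∧ (x ^ n).coeff (n * a) = x.coeff a ^ n := by
  induction n with
  | zero =>
    refine ⟨?_, ?_⟩
    · intro c hc
      rw [Nat.cast_zero, zero_mul] at hc
      rw [pow_zero, HahnSeries.coeff_one, if_neg hc.ne]
    · rw [pow_zero, pow_zero, Nat.cast_zero, zero_mul, HahnSeries.coeff_one, if_pos rfl]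
  | succ n ih =>
    have h : ((n + 1 : ℕ) : ℝ) * a = n * a + a := by
      push_cast
      ring
    rw [h, pow_succ, pow_succ]
    refine ⟨lmul ih.1 hx, ?_⟩
    rw [lcoeff_mul ih.1 hx, ih.2]

theorem single_pow (n : ℕ) :
    (AddMonoidAlgebra.single ((1 : ℤ), (1 : ℤ)) (1 : F) : Lau F) ^ n =
      AddMonoidAlgebra.single ((n : ℤ), (n : ℤ)) 1 := by
  rw [AddMonoidAlgebra.single_pow, one_pow]
  congr 1
  ext <;> simp

theorem cf_sum {ι : Type} (s : Finset ι) (x : ι → HR F) (a : ℝ) (i j : ℤ) :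
    cf (∑ k ∈ s, x k) a i j = ∑ k ∈ s, cf (x k) a i j := by
  classical
  induction s using Finset.induction_on with
  | empty => simp [cf]
  | insert k s hk ih =>
    rw [Finset.sum_insert hk, Finset.sum_insert hk, ← ih]
    simp [cf]

end Lead

open Lead

/-- the properties of the term of index `j` -/
def LeadAt (x : HR F) (m : ℕ) (j : ℤ) (τ : ℝ) (c : ℝ) : Prop :=
  Low x c ∧ x.coeff c ≠ 0 ∧ ∀ i k : ℤ, cf x c i k ≠ 0 →
    k = j ∧ -((m : ℝ) * (1 + τ)) ≤ (i : ℝ) - j ∧ (i : ℝ) - j ≤ m * (2 - τ)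

theorem Lead.of_red
    (exponent_bound : ∀ {m : ℕ} {g : MvPolynomial (ZMod 3) (HK F)} (_ : g.IsHomogeneous m)
      (τ : ℝ) {a : ℝ} (_ : Low (ev (theta F τ) g) a) {i j : ℤ}
      (_ : cf (ev (theta F τ) g) a i j ≠ 0),
      -((m : ℝ) * (1 + τ)) ≤ i ∧ (i : ℝ) ≤ m * (2 - τ) ∧ j = 0)
    (noncancel : ∀ {m : ℕ} {g : MvPolynomial (ZMod 3) (HK F)} (_ : g.IsHomogeneous m)
      (_ : Red g) {b : ℝ} {α : ZMod 3 →₀ ℕ} (_ : ∀ β, Low (g.coeff β) b)
      (_ : (g.coeff α).coeff b ≠ 0) {τ : ℝ} (_ : 0 ≤ τ) (_ : τ ≤ 1),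
      ∃ (a : ℝ) (i : ℤ), a ≤ b + 3 * m ∧ cf (ev (theta F τ) g) a i 0 ≠ 0)
    (tube_diff : ∀ {g : MvPolynomial (ZMod 3) (HK F)} {b : ℝ} (_ : ∀ β, Low (g.coeff β) b)
      {τ : ℝ} (_ : 0 ≤ τ) (_ : τ ≤ 1) {s : ℝ} (_ : 0 ≤ s),
      Low (ev (tube F τ s) g - ev (theta F τ) g) (s + b))
    {m : ℕ} {g : MvPolynomial (ZMod 3) (HK F)} (hg : g.IsHomogeneous m) (hr : Red g)
    (hne : g ≠ 0) {τ : ℝ} (h0 : 0 ≤ τ) (h1 : τ ≤ 1) {s : ℝ} (hs : 3 * m < s) :
    ∃ c, LeadAt (ev (tube F τ s) g) m 0 τ c := by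
  have hsup : g.support.Nonempty := MvPolynomial.support_nonempty.mpr hne
  obtain ⟨α, hα, hmin⟩ := Finset.exists_min_image g.support (fun β => (g.coeff β).order) hsup
  obtain ⟨b, hb⟩ : ∃ b, b = (g.coeff α).order := ⟨_, rfl⟩
  have hlow : ∀ β, Low (g.coeff β) b := by
    intro β a ha
    by_cases hβ : β ∈ g.support
    · refine HahnSeries.coeff_eq_zero_of_lt_order (lt_of_lt_of_le ha ?_)
      rw [hb]
      exact hmin β hβ
    · rw [MvPolynomial.notMem_support_iff.mp hβ, HahnSeries.coeff_zero]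
  have hαb : (g.coeff α).coeff b ≠ 0 := by
    rw [hb]
    intro h
    exact (MvPolynomial.mem_support_iff.mp hα) (HahnSeries.coeff_order_eq_zero.mp h)
  obtain ⟨a, i, ha, hcf⟩ := noncancel hg hr hlow hαb h0 h1
  obtain ⟨x, hx⟩ : ∃ x, x = ev (theta F τ) g := ⟨_, rfl⟩
  have hxa : x.coeff a ≠ 0 := by
    intro h
    apply hcf
    rw [← hx]
    unfold cf
    rw [h]
    rfl
  have hord : x.order ≤ a := HahnSeries.order_le_of_coeff_ne_zero hxa
  have hxne : x ≠ 0 := HahnSeries.ne_zero_of_coeff_ne_zero hxa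
  have hs0 : 0 ≤ s := by
    have : (0 : ℝ) ≤ m := Nat.cast_nonneg m
    linarith
  have hdiff := tube_diff hlow h0 h1 hs0
  have hco : ∀ c, c ≤ x.order → (ev (tube F τ s) g).coeff c = x.coeff c := by
    intro c hc
    have h2 := hdiff c (by linarith)
    rw [HahnSeries.coeff_sub, sub_eq_zero] at h2
    rw [h2, hx]
  have hxlow : Low x x.order := fun c hc => HahnSeries.coeff_eq_zero_of_lt_order hc
  refine ⟨x.order, ?_, ?_, ?_⟩
  · intro c hc
    rw [hco c hc.le]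
    exact hxlow c hc
  · rw [hco _ le_rfl]
    intro h
    exact hxne (HahnSeries.coeff_order_eq_zero.mp h)
  · intro i' k hik
    have h2 : cf x x.order i' k ≠ 0 := by
      unfold cf at hik ⊢
      rw [← hco _ le_rfl]
      exact hik
    rw [hx] at h2 hxlow
    rw [← hx] at h2 hxlow
    have h3 := exponent_bound hg τ (a := x.order) (by rw [← hx]; exact hxlow)
      (i := i') (j := k) (by rw [← hx]; exact h2)
    refine ⟨h3.2.2, ?_, ?_⟩
    · have := h3.1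
      push_cast
      linarith
    · have := h3.2.1
      push_cast
      linarith

theorem Lead.mul_pow {x H : HR F} {m : ℕ} {τ c e : ℝ} (hx : LeadAt x m 0 τ c) (hH : Low H e)
    (hH2 : H.coeff e = AddMonoidAlgebra.single (1, 1) 1) (j : ℕ) :
    LeadAt (x * H ^ j) m j τ (c + j * e) := by
  obtain ⟨h1, h2, h3⟩ := hx
  obtain ⟨h4, h5⟩ := lpow hH j
  rw [hH2, Lead.single_pow] at h5
  have h6 : (x * H ^ j).coeff (c + j * e) = x.coeff c * AddMonoidAlgebra.single ((j : ℤ), (j : ℤ)) 1 := by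
    rw [lcoeff_mul h1 h4, h5]
  have h7 : ∀ i k : ℤ, cf (x * H ^ j) (c + j * e) i k = cf x c (i - j) (k - j) := by
    intro i k
    unfold cf
    rw [h6, AddMonoidAlgebra.coeff_mul_single_apply, mul_one]
    rfl
  refine ⟨lmul h1 h4, ?_, ?_⟩
  · intro h
    apply h2
    ext ⟨i, k⟩
    have h8 := h7 (i + j) (k + j)
    rw [add_sub_cancel_right, add_sub_cancel_right] at h8
    have h9 : cf (x * H ^ j) (c + j * e) (i + j) (k + j) = 0 := by
      unfold cf
      rw [h]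
      rfl
    rw [h9] at h8
    exact h8.symm
  · intro i k hik
    rw [h7] at hik
    obtain ⟨g1, g2, g3⟩ := h3 _ _ hik
    refine ⟨by linarith, ?_, ?_⟩
    · push_cast at g2 ⊢
      linarith
    · push_cast at g3 ⊢
      linarith

theorem tube_lead_of
    (exponent_bound : ∀ {m : ℕ} {g : MvPolynomial (ZMod 3) (HK F)} (_ : g.IsHomogeneous m)
      (τ : ℝ) {a : ℝ} (_ : Low (ev (theta F τ) g) a) {i j : ℤ}
      (_ : cf (ev (theta F τ) g) a i j ≠ 0),
      -((m : ℝ) * (1 + τ)) ≤ i ∧ (i : ℝ) ≤ m * (2 - τ) ∧ j = 0)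
    (noncancel : ∀ {m : ℕ} {g : MvPolynomial (ZMod 3) (HK F)} (_ : g.IsHomogeneous m)
      (_ : Red g) {b : ℝ} {α : ZMod 3 →₀ ℕ} (_ : ∀ β, Low (g.coeff β) b)
      (_ : (g.coeff α).coeff b ≠ 0) {τ : ℝ} (_ : 0 ≤ τ) (_ : τ ≤ 1),
      ∃ (a : ℝ) (i : ℤ), a ≤ b + 3 * m ∧ cf (ev (theta F τ) g) a i 0 ≠ 0)
    (exists_hesse : ∀ (τ : ℝ), ∃ A : HK F, Low A 1 ∧ ev (theta F τ) (hes A) = 0)
    (decomp : ∀ {A : HK F} (_ : Low A 1) {d : ℕ} {f : MvPolynomial (ZMod 3) (HK F)}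
      (_ : f.IsHomogeneous d), ∃ g : ℕ → MvPolynomial (ZMod 3) (HK F),
      (∀ j, 3 * j ≤ d → (g j).IsHomogeneous (d - 3 * j)) ∧ (∀ j, Red (g j)) ∧
      f = ∑ j ∈ Finset.range (d / 3 + 1), g j * hes A ^ j)
    (tube_hes : ∀ {A : HK F} (_ : Low A 1) {τ : ℝ} (_ : 0 < τ) (_ : τ < 1)
      (_ : ev (theta F τ) (hes A) = 0) {s : ℝ} (_ : 1 ≤ s),
      Low (ev (tube F τ s) (hes A)) (s + τ) ∧
      (ev (tube F τ s) (hes A)).coeff (s + τ) = AddMonoidAlgebra.single (1, 1) 1)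
    (tube_diff : ∀ {g : MvPolynomial (ZMod 3) (HK F)} {b : ℝ} (_ : ∀ β, Low (g.coeff β) b)
      {τ : ℝ} (_ : 0 ≤ τ) (_ : τ ≤ 1) {s : ℝ} (_ : 0 ≤ s),
      Low (ev (tube F τ s) g - ev (theta F τ) g) (s + b))
    {τ : ℝ} (h0 : 0 < τ) (h1 : τ < 1) {d : ℕ} {f : MvPolynomial (ZMod 3) (HK F)}
    (hf : f.IsHomogeneous d) (hne : f ≠ 0) {s : ℝ} (hs : 3 * d + 3 < s) :
    ∃ a : ℝ, (ev (tube F τ s) f).coeff a ≠ 0 ∧ ∀ i j : ℤ, cf (ev (tube F τ s) f) a i j ≠ 0 →
      0 ≤ j ∧ -(((d : ℝ) - 3 * j) * (1 + τ)) ≤ (i : ℝ) - j ∧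
        (i : ℝ) - j ≤ ((d : ℝ) - 3 * j) * (2 - τ) := by
  classical
  obtain ⟨A, hA, hrel⟩ := exists_hesse τ
  obtain ⟨g, hg1, hg2, hg3⟩ := decomp hA hf
  have hd0 : (0 : ℝ) ≤ d := Nat.cast_nonneg d
  obtain ⟨hH1, hH2⟩ := tube_hes hA h0 h1 hrel (s := s) (by linarith)
  obtain ⟨J, hJ⟩ : ∃ J : Finset ℕ, J = (Finset.range (d / 3 + 1)).filter (fun j => g j ≠ 0) :=
    ⟨_, rfl⟩
  have hJm : ∀ j ∈ J, 3 * j ≤ d ∧ g j ≠ 0 := by
    intro j hj
    rw [hJ, Finset.mem_filter, Finset.mem_range] at hj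
    exact ⟨by omega, hj.2⟩
  have hlead : ∀ j ∈ J, ∃ c, LeadAt (ev (tube F τ s) (g j * hes A ^ j)) (d - 3 * j) j τ c := by
    intro j hj
    obtain ⟨hj1, hj2⟩ := hJm j hj
    have hs' : 3 * ((d - 3 * j : ℕ) : ℝ) < s := by
      have : ((d - 3 * j : ℕ) : ℝ) ≤ d := by exact_mod_cast Nat.sub_le _ _
      linarith
    obtain ⟨c, hc⟩ := Lead.of_red exponent_bound noncancel tube_diff (hg1 j hj1) (hg2 j) hj2 h0.le
      h1.le hs'
    rw [map_mul, map_pow]
    exact ⟨_, Lead.mul_pow hc hH1 hH2 j⟩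
  choose! c hc using hlead
  have hsumJ : ev (tube F τ s) f = ∑ j ∈ J, ev (tube F τ s) (g j * hes A ^ j) := by
    rw [← map_sum]
    congr 1
    rw [hg3, hJ, Finset.sum_filter]
    refine Finset.sum_congr rfl fun j _ => ?_
    split_ifs with h
    · rfl
    · push Not at h
      rw [h, zero_mul]
  have hJne : J.Nonempty := by
    by_contra hcon
    rw [Finset.not_nonempty_iff_eq_empty] at hcon
    apply hne
    rw [hg3]
    refine Finset.sum_eq_zero fun j hj => ?_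
    by_contra h
    have : j ∈ J := by
      rw [hJ]
      exact Finset.mem_filter.mpr ⟨hj, fun h' => h (by rw [h', zero_mul])⟩
    rw [hcon] at this
    exact absurd this (Finset.notMem_empty _)
  obtain ⟨j0, hj0, hmin⟩ := Finset.exists_min_image J c hJne
  have hcf : ∀ i k, cf (ev (tube F τ s) f) (c j0) i k =
      ∑ j ∈ J, cf (ev (tube F τ s) (g j * hes A ^ j)) (c j0) i k := by
    intro i k
    rw [hsumJ, cf_sum]
  have hone : ∀ j ∈ J, ∀ i k, cf (ev (tube F τ s) (g j * hes A ^ j)) (c j0) i k ≠ 0 →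
      k = j ∧ -(((d - 3 * j : ℕ) : ℝ) * (1 + τ)) ≤ (i : ℝ) - j ∧
        (i : ℝ) - j ≤ ((d - 3 * j : ℕ) : ℝ) * (2 - τ) := by
    intro j hj i k hik
    obtain ⟨e1, _, e3⟩ := hc j hj
    rcases lt_or_eq_of_le (hmin j hj) with h | h
    · exfalso
      apply hik
      unfold cf
      rw [e1 _ h]
      rfl
    · rw [h] at hik
      have h2 := e3 i k hik
      push_cast at h2 ⊢
      exact h2
  refine ⟨c j0, ?_, ?_⟩
  · intro h
    obtain ⟨e1, e2, e3⟩ := hc j0 hj0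
    apply e2
    ext ⟨i, k⟩
    show cf (ev (tube F τ s) (g j0 * hes A ^ j0)) (c j0) i k = 0
    by_contra hik
    have hk := (hone j0 hj0 i k hik).1
    have h3 := hcf i k
    rw [Finset.sum_eq_single j0] at h3
    · apply hik
      rw [← h3]
      unfold cf
      rw [h]
      rfl
    · intro j hj hjne
      by_contra h4
      have h5 := (hone j hj i k h4).1
      rw [hk] at h5
      exact hjne (by exact_mod_cast h5.symm)
    · intro h4
      exact absurd hj0 h4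
  · intro i k hik
    rw [hcf] at hik
    obtain ⟨j, hj, hj2⟩ := Finset.exists_ne_zero_of_sum_ne_zero hik
    obtain ⟨e1, e2, e3⟩ := hone j hj i k hj2
    have hjd := (hJm j hj).1
    have hcast : ((d - 3 * j : ℕ) : ℝ) = (d : ℝ) - 3 * k := by
      rw [Nat.cast_sub hjd, e1]
      push_cast
      ring
    rw [hcast] at e2 e3
    have hkj : (k : ℝ) = j := by
      rw [e1]
      push_cast
      rfl
    rw [← hkj] at e2 e3
    refine ⟨?_, e2, e3⟩
    rw [e1]
    exact Int.natCast_nonneg j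

end Pool.Agent.TH603.EL
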