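import Pool.Agent.H15.G.R_seed8.TH603.EL.Defs

/-! Shift of the theta functions. -/

set_option autoImplicit false

namespace Pool.Agent.TH603.EL

open MvPolynomial

variable {F : Type} [Field F]

theorem cf_tz_mul (x : HR F) (b a : ℝ) (k l i j : ℤ) :
    cf (tz F b k l * x) a i j = cf x (a - b) (i - k) (j - l) := by
  unfold cf tz
  rw [HahnSeries.coeff_single_mul, AddMonoidAlgebra.coeff_single_mul_apply, one_mul]
  congr 1
  ext
  · simp; ring
  · simp; ring

theorem theta_succ (τ : ℝ) (l : ZMod 3) :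
    theta F (τ + 1) l = tz F (-τ) (-1) 0 * theta F τ (l + 1) := by
  classical
  apply cf_ext
  intro a i j
  rw [cf_tz_mul, cf_theta, cf_theta]
  have h1 : (j = 0 ∧ (i : ZMod 3) = l ∧ ex (τ + 1) i = a) ↔
      (j - 0 = 0 ∧ ((i - -1 : ℤ) : ZMod 3) = l + 1 ∧ ex τ (i - -1) = a - -τ) := by
    have e1 : ex τ (i - -1) = ex (τ + 1) i + τ := by
      unfold ex
      rw [sub_neg_eq_add, ee_succ]
      push_cast
      ring
    rw [e1, sub_zero, sub_neg_eq_add, sub_neg_eq_add, add_left_inj]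
    push_cast
    rw [add_left_inj]
  simp only [h1]

namespace Scal1

theorem tz_mul_tz (a b : ℝ) (i j k l : ℤ) :
    tz F a i j * tz F b k l = tz F (a + b) (i + k) (j + l) := by
  unfold tz
  rw [HahnSeries.single_mul_single, AddMonoidAlgebra.single_mul_single, one_mul]
  rfl

theorem tz_zero : tz F 0 0 0 = 1 := rfl

theorem tz_pow (a : ℝ) (i j : ℤ) (m : ℕ) :
    tz F a i j ^ m = tz F (m * a) (m * i) (m * j) := by
  induction m with
  | zero =>
    rw [pow_zero, Nat.cast_zero, Nat.cast_zero, zero_mul, zero_mul, zero_mul, tz_zero]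
  | succ m ih =>
    rw [pow_succ, ih, tz_mul_tz]
    push_cast
    congr 1 <;> ring

theorem theta_add_three (τ : ℝ) (l : ZMod 3) :
    theta F (τ + 3) l = tz F (-(3 * (τ + 1))) (-3) 0 * theta F τ l := by
  have h3 : l + 1 + 1 + 1 = l := by
    have : (1 : ZMod 3) + 1 + 1 = 0 := by decide
    rw [add_assoc, add_assoc, ← add_assoc 1 1 1, this, add_zero]
  rw [show τ + 3 = (τ + 1 + 1) + 1 by ring, theta_succ, theta_succ, theta_succ, h3, ← mul_assoc,
    ← mul_assoc, tz_mul_tz, tz_mul_tz]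
  congr 2
  ring

end Scal1

theorem ev_mul {m : ℕ} {g : MvPolynomial (ZMod 3) (HK F)} (hg : g.IsHomogeneous m) (u : HR F)
    (X : ZMod 3 → HR F) : ev (fun l => u * X l) g = u ^ m * ev X g := by
  unfold ev
  rw [coe_eval₂Hom, coe_eval₂Hom, eval₂_eq', eval₂_eq', Finset.mul_sum]
  refine Finset.sum_congr rfl fun d hd => ?_
  have h1 : ∑ i : ZMod 3, d i = m := by
    have h2 := hg (mem_support_iff.1 hd)
    rw [← h2, Finsupp.weight_apply, Finsupp.sum_fintype _ _ (fun _ => by simp)]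
    simp
  have h2 : ∏ i : ZMod 3, (u * X i) ^ d i = u ^ m * ∏ i : ZMod 3, X i ^ d i := by
    rw [← h1, ← Finset.prod_pow_eq_pow_sum, ← Finset.prod_mul_distrib]
    exact Finset.prod_congr rfl fun i _ => mul_pow _ _ _
  rw [h2]
  ring

theorem ev_theta_add_three {m : ℕ} {g : MvPolynomial (ZMod 3) (HK F)} (hg : g.IsHomogeneous m)
    (τ : ℝ) : ev (theta F (τ + 3)) g =
      tz F (-(3 * m * (τ + 1))) (-(3 * m)) 0 * ev (theta F τ) g := by
  have h1 : theta F (τ + 3) = fun l => tz F (-(3 * (τ + 1))) (-3) 0 * theta F τ l := by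
    funext l
    exact Scal1.theta_add_three τ l
  rw [h1, ev_mul hg, Scal1.tz_pow]
  congr 2
  · ring
  · ring

end Pool.Agent.TH603.EL
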